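import Pool.Agent.R810.LJ.Rob

/-! The asymptotic bound. -/

set_option autoImplicit false
open Finset
open scoped Classical

namespace Pool.Agent.R810.LJ

/-- the link of `v` is, up to at most `ε n²` missing pairs, a join of two graphs with at least
`δ n` vertices each -/
def NearJoinLink {n : ℕ} (H : Finset (Finset (Fin n))) (δ ε : ℝ) (v : Fin n) : Prop :=
  ∃ A B : Finset (Fin n), Divides v A B ∧ δ * n ≤ A.card ∧ δ * n ≤ B.card ∧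
    (((A ×ˢ B).filter fun p => ({v, p.1, p.2} : Finset (Fin n)) ∉ H).card : ℝ) ≤ ε * (n : ℝ) ^ 2

theorem choose_k {δ η : ℝ} (hδ : 0 < δ) (hδ1 : δ < 1) (hη : 0 < η) :
    ∃ k : ℕ, 4 ≤ k ∧ 2 / η + 4 ≤ k ∧ 2 * (k : ℝ) ^ 3 * (1 - δ) ^ (k - 3) ≤ η := by
  have hlim := tendsto_pow_const_mul_const_pow_of_abs_lt_one 3 (r := 1 - δ)
    (by rw [abs_lt]; constructor <;> linarith)
  have h1 : ∀ᶠ m : ℕ in Filter.atTop, (m : ℝ) ^ 3 * (1 - δ) ^ m < η / 128 :=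
    hlim.eventually (gt_mem_nhds (by positivity))
  have h2 : ∀ᶠ m : ℕ in Filter.atTop, 2 / η + 4 ≤ (m : ℝ) :=
    Filter.tendsto_atTop.1 tendsto_natCast_atTop_atTop _
  have h3 : ∀ᶠ m : ℕ in Filter.atTop, 1 ≤ m := Filter.eventually_ge_atTop 1
  obtain ⟨m, e1, e2, e3⟩ := (h1.and (h2.and h3)).exists
  refine ⟨m + 3, by omega, ?_, ?_⟩
  · push_cast
    linarith
  · have e4 : (1 : ℝ) ≤ m := by exact_mod_cast e3
    rw [Nat.add_sub_cancel]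
    push_cast
    have e5 : 0 ≤ (1 - δ) ^ m := pow_nonneg (by linarith) _
    have e6 : ((m : ℝ) + 3) ^ 3 ≤ 64 * (m : ℝ) ^ 3 := by
      have : ((m : ℝ) + 3) ^ 3 ≤ (4 * (m : ℝ)) ^ 3 :=
        pow_le_pow_left₀ (by positivity) (by linarith) 3
      calc ((m : ℝ) + 3) ^ 3 ≤ (4 * (m : ℝ)) ^ 3 := this
        _ = 64 * (m : ℝ) ^ 3 := by ring
    calc 2 * ((m : ℝ) + 3) ^ 3 * (1 - δ) ^ m ≤ 2 * (64 * (m : ℝ) ^ 3) * (1 - δ) ^ m := by
          gcongr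
      _ = 128 * ((m : ℝ) ^ 3 * (1 - δ) ^ m) := by ring
      _ ≤ η := by linarith

theorem asym {δ η : ℝ} (hδ : 0 < δ) (hδ1 : δ < 1) (hη : 0 < η) :
    ∃ ε : ℝ, 0 < ε ∧ ∃ n0 : ℕ, ∀ n, n0 ≤ n → ∀ H : Finset (Finset (Fin n)),
      (∀ e ∈ H, e.card = 3) → K43Free H →
      ((univ.filter fun v => ¬ NearJoinLink H δ ε v).card : ℝ) ≤ ε * n →
      6 * (H.card : ℝ) ≤ (5 / 9 + 3 * η) * (n : ℝ) ^ 3 := by
  obtain ⟨k, hk4, hk, hkδ⟩ := choose_k hδ hδ1 hη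
  have kpos : (0 : ℝ) < k := by
    have : (4 : ℝ) ≤ k := by exact_mod_cast hk4
    linarith
  have k4 : (4 : ℝ) ≤ k := by exact_mod_cast hk4
  refine ⟨η / (4 * (k : ℝ) ^ 3), by positivity, max 1 ⌈2 * (k : ℝ) ^ 3 / η⌉₊, ?_⟩
  intro n hn H h3 hK hX
  set ε : ℝ := η / (4 * (k : ℝ) ^ 3) with hε
  have hεk : (k : ℝ) ^ 3 * (2 * ε) = η / 2 := by
    rw [hε]
    field_simp
    ring
  have n1 : 1 ≤ n := (le_max_left _ _).trans hn
  have n2 : 2 * (k : ℝ) ^ 3 / η ≤ n :=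
    (Nat.le_ceil _).trans (by exact_mod_cast (le_max_right _ _).trans hn)
  have npos : (0 : ℝ) < n := by exact_mod_cast n1
  have hkn : (k : ℝ) ^ 3 ≤ η / 2 * n := by
    rw [div_le_iff₀ hη] at n2
    linarith
  set X : Finset (Fin n) := univ.filter fun v => ¬ NearJoinLink H δ ε v with hXd
  -- the classes
  have hex : ∀ v : Fin n, ∃ A B : Finset (Fin n), Divides v A B ∧ (v ∉ X →
      δ * n ≤ A.card ∧ δ * n ≤ B.card ∧
      (((A ×ˢ B).filter fun p => ({v, p.1, p.2} : Finset (Fin n)) ∉ H).card : ℝ) ≤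
        ε * (n : ℝ) ^ 2) := by
    intro v
    by_cases hv : NearJoinLink H δ ε v
    · obtain ⟨A, B, a1, a2, a3, a4⟩ := hv
      exact ⟨A, B, a1, fun _ => ⟨a2, a3, a4⟩⟩
    · refine ⟨∅, univ.erase v, ⟨disjoint_empty_left _, by simp⟩, fun h => ?_⟩
      exact absurd (show v ∈ X from mem_filter.2 ⟨mem_univ _, hv⟩) h
  choose A B hdiv hprop using hex
  have hmain := all_maps (k := k) (by omega) h3 hK hdiv X
  have hD1 := D_card_le k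
  have hD2 := D_card_ge k
  have hsix := six_le h3
  have htn := tn_le k
  -- reals
  have hmainR : ((D k).card : ℝ) * ((n : ℝ) ^ (k - 3) * (ord H : ℝ)) ≤
      (n : ℝ) ^ k * (6 * (tn k : ℝ)) + (k : ℝ) ^ 3 * (((D k).card : ℝ) *
        ((n : ℝ) ^ (k - 3) * (n : ℝ) ^ 2 + (n : ℝ) ^ (k - 3) * ((X.card : ℝ) * (n : ℝ) ^ 2) +
        (n : ℝ) ^ (k - 3) * ((∑ v, ∑ a, ∑ b, ind (miss H A B X v a b) : ℤ) : ℝ) +
        ((∑ v, ind (v ∉ X) * ((n : ℤ) ^ 2 * ((n - (A v).card : ℕ) : ℤ) ^ (k - 3)) : ℤ) : ℝ) +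
        ((∑ v, ind (v ∉ X) * ((n : ℤ) ^ 2 * ((n - (B v).card : ℕ) : ℤ) ^ (k - 3)) : ℤ) : ℝ))) := by
    exact_mod_cast hmain
  have indle : ∀ p : Prop, (ind p : ℝ) ≤ 1 := by
    intro p
    unfold ind
    split_ifs <;> norm_num
  have indnn : ∀ p : Prop, (0 : ℝ) ≤ (ind p : ℝ) := by
    intro p
    unfold ind
    split_ifs <;> norm_num
  have npow : (n : ℝ) ^ k = (n : ℝ) ^ (k - 3) * (n : ℝ) ^ 3 := by
    rw [← pow_add]
    congr 1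
    omega
  -- missing pairs
  have hmiss : ((∑ v, ∑ a, ∑ b, ind (miss H A B X v a b) : ℤ) : ℝ) ≤ ε * (n : ℝ) ^ 3 := by
    push_cast
    have : ∀ v ∈ (univ : Finset (Fin n)), ∑ a, ∑ b, (ind (miss H A B X v a b) : ℝ) ≤
        ε * (n : ℝ) ^ 2 := by
      intro v _
      by_cases hv : v ∈ X
      · rw [sum_eq_zero fun a _ => sum_eq_zero fun b _ => by
          rw [ind_f (fun h => h.1 hv)]; norm_num]
        positivity
      · have h1 := (hprop v hv).2.2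
        refine le_trans (le_of_eq ?_) h1
        have h2 : ∑ a, ∑ b, ind (miss H A B X v a b) = (((A v ×ˢ B v).filter fun p =>
            ({v, p.1, p.2} : Finset (Fin n)) ∉ H).card : ℤ) := by
          have h3 : ∑ a, ∑ b, ind (miss H A B X v a b) =
              ∑ p : Fin n × Fin n, ind (miss H A B X v p.1 p.2) := by
            rw [Fintype.sum_prod_type]
          rw [h3, sum_ind_card]
          congr 2
          ext p
          simp only [mem_filter, mem_univ, true_and, mem_product, miss]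
          tauto
        have h4 : ((∑ a, ∑ b, ind (miss H A B X v a b) : ℤ) : ℝ) = (((A v ×ˢ B v).filter fun p =>
            ({v, p.1, p.2} : Finset (Fin n)) ∉ H).card : ℝ) := by
          rw [h2]
          norm_cast
        push_cast at h4
        exact h4
    refine (sum_le_sum this).trans ?_
    rw [sum_const, card_univ, Fintype.card_fin, nsmul_eq_mul]
    exact le_of_eq (by ring)
  -- small classes
  have hsmall : ∀ C : Fin n → Finset (Fin n), (∀ v, v ∉ X → δ * n ≤ (C v).card) →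
      ((∑ v, ind (v ∉ X) * ((n : ℤ) ^ 2 * ((n - (C v).card : ℕ) : ℤ) ^ (k - 3)) : ℤ) : ℝ) ≤
        (n : ℝ) ^ (k - 3) * ((n : ℝ) ^ 3 * (1 - δ) ^ (k - 3)) := by
    intro C hC
    push_cast
    have : ∀ v ∈ (univ : Finset (Fin n)), (ind (v ∉ X) : ℝ) *
        ((n : ℝ) ^ 2 * ((n - (C v).card : ℕ) : ℝ) ^ (k - 3)) ≤
        (n : ℝ) ^ 2 * ((1 - δ) * n) ^ (k - 3) := by
      intro v _
      by_cases hv : v ∈ X
      · rw [ind_f (fun h => h hv)]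
        have : 0 ≤ (1 - δ) * (n : ℝ) := mul_nonneg (by linarith) npos.le
        have h0 : 0 ≤ (n : ℝ) ^ 2 * ((1 - δ) * n) ^ (k - 3) := by positivity
        simpa using h0
      · rw [ind_t hv]
        have h1 := hC v hv
        have h2 : (C v).card ≤ n := by
          have := card_le_univ (C v)
          rwa [Fintype.card_fin] at this
        have h3 : ((n - (C v).card : ℕ) : ℝ) ≤ (1 - δ) * n := by
          rw [Nat.cast_sub h2]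
          linarith
        have h4 : ((n - (C v).card : ℕ) : ℝ) ^ (k - 3) ≤ ((1 - δ) * n) ^ (k - 3) :=
          pow_le_pow_left₀ (Nat.cast_nonneg _) h3 _
        push_cast
        rw [one_mul]
        exact mul_le_mul_of_nonneg_left h4 (by positivity)
    refine (sum_le_sum this).trans ?_
    rw [sum_const, card_univ, Fintype.card_fin, nsmul_eq_mul, mul_pow]
    exact le_of_eq (by ring)
  have hSA := hsmall A fun v hv => (hprop v hv).1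
  have hSB := hsmall B fun v hv => (hprop v hv).2.1
  -- divide by `n ^ (k - 3)`
  have hNk : (0 : ℝ) < (n : ℝ) ^ (k - 3) := by positivity
  set d : ℝ := ((D k).card : ℝ) with hd
  have d0 : 0 ≤ d := Nat.cast_nonneg _
  have hstep : d * (ord H : ℝ) ≤ (n : ℝ) ^ 3 * (6 * (tn k : ℝ)) + (k : ℝ) ^ 3 * (d *
      ((n : ℝ) ^ 2 + (X.card : ℝ) * (n : ℝ) ^ 2 + ε * (n : ℝ) ^ 3 +
        2 * ((n : ℝ) ^ 3 * (1 - δ) ^ (k - 3)))) := by
    have h5 : (n : ℝ) ^ (k - 3) * (d * (ord H : ℝ)) ≤ (n : ℝ) ^ (k - 3) *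
        ((n : ℝ) ^ 3 * (6 * (tn k : ℝ)) + (k : ℝ) ^ 3 * (d *
      ((n : ℝ) ^ 2 + (X.card : ℝ) * (n : ℝ) ^ 2 + ε * (n : ℝ) ^ 3 +
        2 * ((n : ℝ) ^ 3 * (1 - δ) ^ (k - 3))))) := by
      have h6 : (k : ℝ) ^ 3 * (d *
        ((n : ℝ) ^ (k - 3) * (n : ℝ) ^ 2 + (n : ℝ) ^ (k - 3) * ((X.card : ℝ) * (n : ℝ) ^ 2) +
        (n : ℝ) ^ (k - 3) * ((∑ v, ∑ a, ∑ b, ind (miss H A B X v a b) : ℤ) : ℝ) +
        ((∑ v, ind (v ∉ X) * ((n : ℤ) ^ 2 * ((n - (A v).card : ℕ) : ℤ) ^ (k - 3)) : ℤ) : ℝ) +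
        ((∑ v, ind (v ∉ X) * ((n : ℤ) ^ 2 * ((n - (B v).card : ℕ) : ℤ) ^ (k - 3)) : ℤ) : ℝ))) ≤
        (k : ℝ) ^ 3 * (d *
        ((n : ℝ) ^ (k - 3) * (n : ℝ) ^ 2 + (n : ℝ) ^ (k - 3) * ((X.card : ℝ) * (n : ℝ) ^ 2) +
        (n : ℝ) ^ (k - 3) * (ε * (n : ℝ) ^ 3) +
        (n : ℝ) ^ (k - 3) * ((n : ℝ) ^ 3 * (1 - δ) ^ (k - 3)) +
        (n : ℝ) ^ (k - 3) * ((n : ℝ) ^ 3 * (1 - δ) ^ (k - 3)))) := by
        refine mul_le_mul_of_nonneg_left (mul_le_mul_of_nonneg_left ?_ d0) (by positivity)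
        have h7 := mul_le_mul_of_nonneg_left hmiss hNk.le
        linarith
      rw [npow] at hmainR
      calc (n : ℝ) ^ (k - 3) * (d * (ord H : ℝ)) = d * ((n : ℝ) ^ (k - 3) * (ord H : ℝ)) := by ring
        _ ≤ _ := hmainR
        _ ≤ (n : ℝ) ^ (k - 3) * (n : ℝ) ^ 3 * (6 * (tn k : ℝ)) + (k : ℝ) ^ 3 * (d *
        ((n : ℝ) ^ (k - 3) * (n : ℝ) ^ 2 + (n : ℝ) ^ (k - 3) * ((X.card : ℝ) * (n : ℝ) ^ 2) +
        (n : ℝ) ^ (k - 3) * (ε * (n : ℝ) ^ 3) +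
        (n : ℝ) ^ (k - 3) * ((n : ℝ) ^ 3 * (1 - δ) ^ (k - 3)) +
        (n : ℝ) ^ (k - 3) * ((n : ℝ) ^ 3 * (1 - δ) ^ (k - 3)))) := by linarith
        _ = _ := by ring
    exact le_of_mul_le_mul_left h5 hNk
  -- numbers
  have hD2R : (k : ℝ) ^ 3 - 3 * (k : ℝ) ^ 2 ≤ d := by
    rw [hd]
    exact_mod_cast hD2
  have htnR : 54 * (tn k : ℝ) ≤ 5 * (k : ℝ) ^ 3 := by exact_mod_cast htn
  have dpos : 0 < d := by
    have : 0 < (k : ℝ) ^ 3 - 3 * (k : ℝ) ^ 2 := by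
      have e : (k : ℝ) ^ 3 - 3 * (k : ℝ) ^ 2 = (k : ℝ) ^ 2 * (k - 3) := by ring
      rw [e]
      have : (0 : ℝ) < k - 3 := by linarith
      positivity
    linarith
  have hk5 : 5 / 9 * (k : ℝ) ^ 3 ≤ (5 / 9 + η) * d := by
    have e1 : (5 / 9 + η) * ((k : ℝ) ^ 3 - 3 * (k : ℝ) ^ 2) ≤ (5 / 9 + η) * d :=
      mul_le_mul_of_nonneg_left hD2R (by positivity)
    have e2 : 2 + 4 * η ≤ η * k := by
      have := mul_le_mul_of_nonneg_left hk hη.le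
      have e3 : η * (2 / η + 4) = 2 + 4 * η := by
        field_simp
      linarith
    have e4 : 0 ≤ (k : ℝ) ^ 2 * (η * k - (2 + 4 * η)) := mul_nonneg (by positivity) (by linarith)
    nlinarith [sq_nonneg (k : ℝ)]
  have hX2 : (X.card : ℝ) * (n : ℝ) ^ 2 ≤ ε * (n : ℝ) ^ 3 := by
    have := mul_le_mul_of_nonneg_right hX (by positivity : (0 : ℝ) ≤ (n : ℝ) ^ 2)
    calc (X.card : ℝ) * (n : ℝ) ^ 2 ≤ ε * n * (n : ℝ) ^ 2 := this
      _ = ε * (n : ℝ) ^ 3 := by ring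
  have hbr : (k : ℝ) ^ 3 * ((n : ℝ) ^ 2 + (X.card : ℝ) * (n : ℝ) ^ 2 + ε * (n : ℝ) ^ 3 +
        2 * ((n : ℝ) ^ 3 * (1 - δ) ^ (k - 3))) ≤ 2 * η * (n : ℝ) ^ 3 := by
    have e1 : (k : ℝ) ^ 3 * (n : ℝ) ^ 2 ≤ η / 2 * (n : ℝ) ^ 3 := by
      have := mul_le_mul_of_nonneg_right hkn (by positivity : (0 : ℝ) ≤ (n : ℝ) ^ 2)
      calc (k : ℝ) ^ 3 * (n : ℝ) ^ 2 ≤ η / 2 * n * (n : ℝ) ^ 2 := this
        _ = η / 2 * (n : ℝ) ^ 3 := by ring
    have e2 : (k : ℝ) ^ 3 * ((X.card : ℝ) * (n : ℝ) ^ 2 + ε * (n : ℝ) ^ 3) ≤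
        η / 2 * (n : ℝ) ^ 3 := by
      calc (k : ℝ) ^ 3 * ((X.card : ℝ) * (n : ℝ) ^ 2 + ε * (n : ℝ) ^ 3) ≤
          (k : ℝ) ^ 3 * (ε * (n : ℝ) ^ 3 + ε * (n : ℝ) ^ 3) := by gcongr
        _ = ((k : ℝ) ^ 3 * (2 * ε)) * (n : ℝ) ^ 3 := by ring
        _ = η / 2 * (n : ℝ) ^ 3 := by rw [hεk]
    have e3 : (k : ℝ) ^ 3 * (2 * ((n : ℝ) ^ 3 * (1 - δ) ^ (k - 3))) ≤ η * (n : ℝ) ^ 3 := by
      have := mul_le_mul_of_nonneg_right hkδ (by positivity : (0 : ℝ) ≤ (n : ℝ) ^ 3)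
      calc (k : ℝ) ^ 3 * (2 * ((n : ℝ) ^ 3 * (1 - δ) ^ (k - 3))) =
          2 * (k : ℝ) ^ 3 * (1 - δ) ^ (k - 3) * (n : ℝ) ^ 3 := by ring
        _ ≤ η * (n : ℝ) ^ 3 := this
    calc (k : ℝ) ^ 3 * ((n : ℝ) ^ 2 + (X.card : ℝ) * (n : ℝ) ^ 2 + ε * (n : ℝ) ^ 3 +
        2 * ((n : ℝ) ^ 3 * (1 - δ) ^ (k - 3))) = (k : ℝ) ^ 3 * (n : ℝ) ^ 2 +
        (k : ℝ) ^ 3 * ((X.card : ℝ) * (n : ℝ) ^ 2 + ε * (n : ℝ) ^ 3) +
        (k : ℝ) ^ 3 * (2 * ((n : ℝ) ^ 3 * (1 - δ) ^ (k - 3))) := by ring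
      _ ≤ η / 2 * (n : ℝ) ^ 3 + η / 2 * (n : ℝ) ^ 3 + η * (n : ℝ) ^ 3 := by linarith
      _ = 2 * η * (n : ℝ) ^ 3 := by ring
  have hfin : d * (ord H : ℝ) ≤ d * ((5 / 9 + 3 * η) * (n : ℝ) ^ 3) := by
    have e1 : (n : ℝ) ^ 3 * (6 * (tn k : ℝ)) ≤ (n : ℝ) ^ 3 * ((5 / 9 + η) * d) := by
      refine mul_le_mul_of_nonneg_left ?_ (by positivity)
      linarith
    have e2 := mul_le_mul_of_nonneg_left hbr d0
    calc d * (ord H : ℝ) ≤ _ := hstep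
      _ = (n : ℝ) ^ 3 * (6 * (tn k : ℝ)) + d * ((k : ℝ) ^ 3 * ((n : ℝ) ^ 2 +
        (X.card : ℝ) * (n : ℝ) ^ 2 + ε * (n : ℝ) ^ 3 +
        2 * ((n : ℝ) ^ 3 * (1 - δ) ^ (k - 3)))) := by ring
      _ ≤ (n : ℝ) ^ 3 * ((5 / 9 + η) * d) + d * (2 * η * (n : ℝ) ^ 3) := by linarith
      _ = d * ((5 / 9 + 3 * η) * (n : ℝ) ^ 3) := by ring
  have hord := le_of_mul_le_mul_left hfin dpos
  have hsixR : 6 * (H.card : ℝ) ≤ (ord H : ℝ) := by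
    unfold ord
    exact_mod_cast hsix
  exact hsixR.trans hord

/-- the final form -/
theorem asymptotic {δ η : ℝ} (hδ : 0 < δ) (hη : 0 < η) :
    ∃ ε : ℝ, 0 < ε ∧ ∃ n0 : ℕ, ∀ n, n0 ≤ n → ∀ H : Finset (Finset (Fin n)),
      (∀ e ∈ H, e.card = 3) → K43Free H →
      ((univ.filter fun v => ¬ NearJoinLink H δ ε v).card : ℝ) ≤ ε * n →
      (H.card : ℝ) ≤ (5 / 9 + η) * (n.choose 3 : ℝ) := by
  have hδ' : 0 < min δ (1 / 2) := lt_min hδ (by norm_num)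
  obtain ⟨ε, hε, n0, hmain⟩ := asym hδ' ((min_le_right _ _).trans_lt (by norm_num))
    (by positivity : 0 < η / 6)
  refine ⟨ε, hε, max n0 (max 1 ⌈(4 + 6 * η) / η⌉₊), fun n hn H h3 hK hX => ?_⟩
  have m1 : n0 ≤ n := (le_max_left _ _).trans hn
  have m2 : 1 ≤ n := ((le_max_left _ _).trans (le_max_right _ _)).trans hn
  have m3 : (4 + 6 * η) / η ≤ n :=
    (Nat.le_ceil _).trans (by
      exact_mod_cast ((le_max_right _ _).trans (le_max_right _ _)).trans hn)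
  have npos : (0 : ℝ) < n := by exact_mod_cast m2
  have hmono : (univ.filter fun v => ¬ NearJoinLink H (min δ (1 / 2)) ε v) ⊆
      univ.filter fun v => ¬ NearJoinLink H δ ε v := by
    intro v hv
    rw [mem_filter] at hv ⊢
    refine ⟨mem_univ _, fun h => hv.2 ?_⟩
    obtain ⟨A, B, a1, a2, a3, a4⟩ := h
    have hle : min δ (1 / 2) * (n : ℝ) ≤ δ * n :=
      mul_le_mul_of_nonneg_right (min_le_left _ _) npos.le
    exact ⟨A, B, a1, hle.trans a2, hle.trans a3, a4⟩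
  have hX' : ((univ.filter fun v => ¬ NearJoinLink H (min δ (1 / 2)) ε v).card : ℝ) ≤ ε * n :=
    le_trans (by exact_mod_cast card_le_card hmono) hX
  have h6 := hmain n m1 H h3 hK hX'
  have c3 : 6 * ((n.choose 3 : ℕ) : ℝ) = (n : ℝ) * (n - 1) * (n - 2) := by
    have e : ∀ m : ℕ, 6 * ((m.choose 3 : ℕ) : ℝ) = (m : ℝ) * (m - 1) * (m - 2) := by
      intro m
      induction m with
      | zero => simp
      | succ m ih =>
        have h2 : ((m.choose 2 : ℕ) : ℝ) = (m : ℝ) * ((m : ℝ) - 1) / 2 := Nat.cast_choose_two ℝ m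
        rw [Nat.choose_succ_succ' m 2]
        push_cast
        rw [mul_add, ih, h2]
        ring
    exact e n
  have hη2 : 4 + 6 * η ≤ η * n := by
    rw [div_le_iff₀ hη] at m3
    linarith
  have e1 : (5 / 9 + 3 * (η / 6)) * (n : ℝ) ^ 3 ≤ (5 / 9 + η) * ((n : ℝ) * (n - 1) * (n - 2)) := by
    have e2 : 0 ≤ (n : ℝ) ^ 2 * (η * n - (4 + 6 * η)) := mul_nonneg (by positivity) (by linarith)
    nlinarith [sq_nonneg (n : ℝ), mul_pos hη npos]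
  have : 6 * (H.card : ℝ) ≤ 6 * ((5 / 9 + η) * ((n.choose 3 : ℕ) : ℝ)) := by
    calc 6 * (H.card : ℝ) ≤ _ := h6
      _ ≤ _ := e1
      _ = 6 * ((5 / 9 + η) * ((n.choose 3 : ℕ) : ℝ)) := by rw [← c3]; ring
  linarith

end Pool.Agent.R810.LJ
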