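import Mathlib

/-!
The structure behind Turán's construction: if every four points contain a triple of `E` and, at
every point `v`, the other points are divided into two classes (by `s v`) of at least two points
such that no triple of `E` containing `v` meets both classes, then the points are divided into
three classes as in Turán's construction.
-/

set_option autoImplicit false
open Finset

namespace Pool.Agent.R810.LJ

variable {V : Type*} [Fintype V] [DecidableEq V]

/-- the points other than `v` which are not in the class of `y` at `v` -/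
def far (s : V → V → Bool) (v y : V) : Finset V := univ.filter fun x => x ≠ v ∧ s v x ≠ s v y

theorem mem_far {s : V → V → Bool} {v y x : V} : x ∈ far s v y ↔ x ≠ v ∧ s v x ≠ s v y := by
  unfold far
  simp

/-- the assumptions on the triples `E` and on the classes at the points -/
structure Split (E : V → V → V → Prop) (s : V → V → Bool) : Prop where
  four : ∀ a b c d : V, a ≠ b → a ≠ c → a ≠ d → b ≠ c → b ≠ d → c ≠ d →
    E a b c ∨ E a b d ∨ E a c d ∨ E b c d
  swap : ∀ a b c : V, E a b c → E b a c
  rot : ∀ a b c : V, E a b c → E b c a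
  same : ∀ a b c : V, a ≠ b → a ≠ c → b ≠ c → E a b c → s a b = s a c
  two : ∀ v y : V, v ≠ y → 2 ≤ (far s v y).card

variable {E : V → V → V → Prop} {s : V → V → Bool}

theorem bne {a b c : Bool} (h1 : a ≠ b) (h2 : c ≠ b) : a = c := by
  cases a <;> cases b <;> cases c <;> simp_all

/-- The far classes of two points are comparable. -/
theorem nested (h : Split E s) {v y : V} (hvy : v ≠ y) :
    far s v y ⊆ far s y v ∨ far s y v ⊆ far s v y := by
  by_contra hcon
  push Not at hcon
  obtain ⟨h1, h2⟩ := hcon
  obtain ⟨c, hc, hc'⟩ := Finset.not_subset.1 h1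
  obtain ⟨d, hd, hd'⟩ := Finset.not_subset.1 h2
  rw [mem_far] at hc hc' hd hd'
  have cy : c ≠ y := by
    rintro rfl
    exact hc.2 rfl
  have dv : d ≠ v := by
    rintro rfl
    exact hd.2 rfl
  have c1 : s y c = s y v := by
    by_contra hh
    exact hc' ⟨cy, hh⟩
  have d1 : s v d = s v y := by
    by_contra hh
    exact hd' ⟨dv, hh⟩
  have cd : c ≠ d := by
    rintro rfl
    exact hc.2 d1
  rcases h.four v y c d hvy hc.1.symm dv.symm cy.symm hd.1.symm cd with e | e | e | e
  · exact hc.2 (h.same v y c hvy hc.1.symm cy.symm e).symm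
  · exact hd.2 (h.same y v d hvy.symm hd.1.symm dv.symm (h.swap _ _ _ e)).symm
  · have := h.same v c d hc.1.symm dv.symm cd e
    exact hc.2 (this.trans d1)
  · have := h.same y c d cy.symm hd.1.symm cd e
    exact hd.2 (this.symm.trans c1)

/-- The structure: a division of the points into three classes such that the far class of a point
is the preceding class. -/
theorem structure_of (h : Split E s) (hV : ∃ v y : V, v ≠ y) :
    ∃ g : V → Fin 3, (∀ x y z : V, x ≠ y → x ≠ z →
      (s x y = s x z ↔ (g y = g x - 1 ↔ g z = g x - 1))) ∧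
      (∀ i, 2 ≤ (univ.filter fun x => g x = i).card) := by
  classical
  -- a smallest class
  obtain ⟨v, y0, hvy, hmin⟩ : ∃ v y0 : V, v ≠ y0 ∧
      ∀ w z : V, w ≠ z → (far s v y0).card ≤ (far s w z).card := by
    have hne : ((univ : Finset (V × V)).filter fun p => p.1 ≠ p.2).Nonempty := by
      obtain ⟨v, y, hh⟩ := hV
      exact ⟨(v, y), by simp [hh]⟩
    obtain ⟨p, hp, hp'⟩ := exists_min_image _ (fun p : V × V => (far s p.1 p.2).card) hne
    refine ⟨p.1, p.2, (mem_filter.1 hp).2, fun w z hwz => hp' (w, z) (by simp [hwz])⟩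
  set B := far s v y0 with hB
  have hB2 : 2 ≤ B.card := h.two v y0 hvy
  have vB : v ∉ B := fun hh => (mem_far.1 hh).1 rfl
  -- the points outside `B` see `B` on one side and `v` on the other side
  have hA : ∀ a, a ≠ v → a ∉ B → s v a = s v y0 := by
    intro a ha haB
    by_contra hh
    exact haB (mem_far.2 ⟨ha, hh⟩)
  have h1 : ∀ a, a ≠ v → a ∉ B → B ⊆ far s a v := by
    intro a ha haB
    have e : far s v a = B := by
      ext x
      rw [mem_far, hB, mem_far, hA a ha haB]
    rcases nested h ha.symm with hh | hh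
    · rwa [e] at hh
    · rw [e] at hh
      have := eq_of_subset_of_card_le hh (hmin a v ha)
      rw [this]
  have h1' : ∀ a, a ≠ v → a ∉ B → ∀ b ∈ B, s a b ≠ s a v := fun a ha haB b hb =>
    (mem_far.1 (h1 a ha haB hb)).2
  -- the points of `B` see the other points of `B` on the side of `v`
  have h2 : ∀ b ∈ B, ∀ b' ∈ B, b ≠ b' → s b b' = s b v := by
    intro b hb b' hb' hbb
    by_contra hh
    have hbv : b ≠ v := fun e => vB (e ▸ hb)
    have hb'v : b' ≠ v := fun e => vB (e ▸ hb')
    have m1 : b' ∈ far s b v := mem_far.2 ⟨hbb.symm, hh⟩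
    have m2 : b' ∉ far s v b := by
      rw [mem_far]
      rintro ⟨-, h3⟩
      exact h3 (bne (mem_far.1 hb').2 (mem_far.1 hb).2)
    have n1 : far s v b ⊆ far s b v := by
      rcases nested h hbv with h3 | h3
      · exact absurd (h3 m1) m2
      · exact h3
    have n2 : far s b b' ⊆ insert v ((B.erase b).erase b') := by
      intro z hz
      rw [mem_far] at hz
      rw [mem_insert, mem_erase, mem_erase]
      by_cases hzv : z = v
      · exact Or.inl hzv
      · right
        have hz1 : z ∉ far s b v := by
          rw [mem_far]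
          rintro ⟨-, h4⟩
          exact hz.2 (bne h4 hh)
        have hz2 : z ∉ far s v b := fun h4 => hz1 (n1 h4)
        have hz3 : s v z = s v b := by
          by_contra h5
          exact hz2 (mem_far.2 ⟨hzv, h5⟩)
        refine ⟨?_, hz.1, mem_far.2 ⟨hzv, ?_⟩⟩
        · rintro rfl
          exact hz.2 rfl
        · rw [hz3]
          exact (mem_far.1 hb).2
    have n3 := card_le_card n2
    have n4 : (insert v ((B.erase b).erase b')).card < B.card := by
      have := card_insert_le v ((B.erase b).erase b')
      have e1 : ((B.erase b).erase b').card = B.card - 1 - 1 := by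
        rw [card_erase_of_mem (mem_erase.2 ⟨hbb.symm, hb'⟩), card_erase_of_mem hb]
      omega
    have n5 := hmin b b' hbb
    omega
  -- the far class of the points of `B`
  obtain ⟨b0, hb0⟩ : B.Nonempty := card_pos.1 (by omega)
  obtain ⟨b1, hb1, hb10⟩ : ∃ b1 ∈ B, b1 ≠ b0 := by
    have : 0 < (B.erase b0).card := by
      rw [card_erase_of_mem hb0]
      omega
    obtain ⟨b1, hh⟩ := card_pos.1 this
    exact ⟨b1, (mem_erase.1 hh).2, (mem_erase.1 hh).1⟩
  have other : ∀ b ∈ B, ∃ b' ∈ B, b' ≠ b := by
    intro b hb
    by_cases e : b = b0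
    · exact ⟨b1, hb1, by rw [e]; exact hb10⟩
    · exact ⟨b0, hb0, fun h3 => e h3.symm⟩
  have bv : ∀ b ∈ B, b ≠ v := fun b hb e => vB (e ▸ hb)
  have farB : ∀ b ∈ B, ∀ z ∈ far s b v, z ≠ v ∧ z ∉ B := by
    intro b hb z hz
    rw [mem_far] at hz
    refine ⟨?_, fun hzB => hz.2 (h2 b hb z hzB (Ne.symm hz.1))⟩
    rintro rfl
    exact hz.2 rfl
  -- points of the far class of `b` see each other on the side of `b`
  have h3 : ∀ b ∈ B, ∀ a ∈ far s b v, ∀ a' ∈ far s b v, a ≠ a' → s a a' = s a b := by
    intro b hb a ha a' ha' haa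
    obtain ⟨b', hb', hbb⟩ := other b hb
    have fa := farB b hb a ha
    have fa' := farB b hb a' ha'
    have hab : a ≠ b := (mem_far.1 ha).1
    have m1 : b' ∈ far s b a := by
      rw [mem_far]
      refine ⟨hbb, ?_⟩
      rw [h2 b hb b' hb' hbb.symm]
      exact (mem_far.1 ha).2.symm
    have m2 : b' ∉ far s a b := by
      rw [mem_far]
      rintro ⟨-, h5⟩
      exact h5 (bne (h1' a fa.1 fa.2 b' hb') (h1' a fa.1 fa.2 b hb))
    have n1 : far s a b ⊆ far s b a := by
      rcases nested h hab with h5 | h5
      · exact h5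
      · exact absurd (h5 m1) m2
    by_contra h6
    have m3 : a' ∈ far s a b := mem_far.2 ⟨haa.symm, h6⟩
    have m4 := (mem_far.1 (n1 m3)).2
    exact m4 (bne (mem_far.1 ha').2 (mem_far.1 ha).2)
  -- points outside `B` and the far class of `b` see this class on the side of `v`
  have h4 : ∀ b ∈ B, ∀ a, a ≠ v → a ∉ B → a ∉ far s b v → ∀ a' ∈ far s b v,
      s a a' ≠ s a b := by
    intro b hb a hav haB ha a' ha'
    have hab : a ≠ b := fun e => haB (e ▸ hb)
    have e1 : s b a = s b v := by
      by_contra h5
      exact ha (mem_far.2 ⟨hab, h5⟩)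
    have m1 : v ∈ far s a b := mem_far.2 ⟨hav.symm, (h1' a hav haB b hb).symm⟩
    have m2 : v ∉ far s b a := by
      rw [mem_far]
      rintro ⟨-, h5⟩
      exact h5 e1.symm
    have n1 : far s b a ⊆ far s a b := by
      rcases nested h hab with h5 | h5
      · exact absurd (h5 m1) m2
      · exact h5
    have m3 : a' ∈ far s b a := by
      rw [mem_far]
      refine ⟨(mem_far.1 ha').1, ?_⟩
      rw [e1]
      exact (mem_far.1 ha').2
    exact (mem_far.1 (n1 m3)).2
  -- the far class is the same for all points of `B`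
  have h5 : ∀ b ∈ B, ∀ b' ∈ B, far s b v ⊆ far s b' v := by
    intro b hb b' hb'
    by_cases hbb : b = b'
    · rw [hbb]
    · have e1 : far s b b' = far s b v := by
        ext x
        rw [mem_far, mem_far, h2 b hb b' hb' hbb]
      have e2 : far s b' b = far s b' v := by
        ext x
        rw [mem_far, mem_far, h2 b' hb' b hb (Ne.symm hbb)]
      rcases nested h hbb with h6 | h6
      · rwa [e1, e2] at h6
      · rw [e1, e2] at h6
        -- `far b' v ⊆ far b v`; take `a` in the difference
        intro a ha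
        by_contra hcon
        have fa := farB b hb a ha
        obtain ⟨a', ha'⟩ : (far s b' v).Nonempty :=
          card_pos.1 (by have := h.two b' v (bv b' hb'); omega)
        have k1 := h4 b' hb' a fa.1 fa.2 hcon a' ha'
        have haa : a ≠ a' := fun e => hcon (e ▸ ha')
        have k2 := h3 b hb a ha a' (h6 ha') haa
        apply k1
        rw [k2]
        exact bne (h1' a fa.1 fa.2 b hb) (h1' a fa.1 fa.2 b' hb')
  set F := far s b0 v with hF
  have hFb : ∀ b ∈ B, far s b v = F := fun b hb =>
    Subset.antisymm (h5 b hb b0 hb0) (h5 b0 hb0 b hb)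
  have hF2 : 2 ≤ F.card := h.two b0 v (bv b0 hb0)
  have Fv : ∀ a ∈ F, a ≠ v ∧ a ∉ B := farB b0 hb0
  -- a second point of F
  have otherF : ∀ a ∈ F, ∃ a' ∈ F, a' ≠ a := by
    intro a ha
    have : 0 < (F.erase a).card := by
      rw [card_erase_of_mem ha]
      omega
    obtain ⟨b1, hh⟩ := card_pos.1 this
    exact ⟨b1, (mem_erase.1 hh).2, (mem_erase.1 hh).1⟩
  -- points of F and points of E
  have h6 : ∀ a ∈ F, ∀ e, e ≠ v → e ∉ B → e ∉ F → s a e = s a v ∧ s e a = s e v := by
    intro a ha e hev heB heF
    have hae : a ≠ e := fun h7 => heF (h7 ▸ ha)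
    have k1 := h4 b0 hb0 e hev heB heF a ha
    have k2 := h1' e hev heB b0 hb0
    have k3 : s e a = s e v := bne k1 k2.symm
    refine ⟨?_, k3⟩
    by_contra h7
    have k4 := h1' a (Fv a ha).1 (Fv a ha).2 b0 hb0
    have k5 : s a e = s a b0 := bne h7 k4
    have m1 : v ∈ far s a e := mem_far.2 ⟨(Fv a ha).1.symm, fun h8 => h7 h8.symm⟩
    have m2 : v ∉ far s e a := by
      rw [mem_far]
      rintro ⟨-, h8⟩
      exact h8 k3.symm
    have m3 : b0 ∈ far s e a := mem_far.2 ⟨fun h8 => heB (h8 ▸ hb0), fun h8 => k1 h8.symm⟩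
    have m4 : b0 ∉ far s a e := by
      rw [mem_far]
      rintro ⟨-, h8⟩
      exact h8 k5.symm
    rcases nested h hae with h9 | h9
    · exact m2 (h9 m1)
    · exact m4 (h9 m3)
  -- two points of E
  have h7 : ∀ e, e ≠ v → e ∉ B → e ∉ F → ∀ e', e' ≠ e → e' ∉ B → e' ∉ F → s e e' = s e v := by
    intro e hev heB heF e' hee he'B he'F
    by_cases he'v : e' = v
    · rw [he'v]
    · obtain ⟨a, ha⟩ : F.Nonempty := card_pos.1 (by omega)
      obtain ⟨a', ha', haa⟩ := otherF a ha
      have hae : a ≠ e := fun h8 => heF (h8 ▸ ha)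
      have p1 := h6 a ha e hev heB heF
      have p2 := h6 a' ha' e hev heB heF
      have p3 := h6 a ha e' he'v he'B he'F
      have q1 : s a a' = s a b0 := h3 b0 hb0 a ha a' ha' haa.symm
      have q2 := h1' a (Fv a ha).1 (Fv a ha).2 b0 hb0
      have m1 : a' ∈ far s a e := by
        rw [mem_far]
        refine ⟨haa, ?_⟩
        rw [q1, p1.1]
        exact q2
      have m2 : a' ∉ far s e a := by
        rw [mem_far]
        rintro ⟨-, h8⟩
        exact h8 (p2.2.trans p1.2.symm)
      have n1 : far s e a ⊆ far s a e := by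
        rcases nested h hae with h9 | h9
        · exact absurd (h9 m1) m2
        · exact h9
      by_contra h8
      have m3 : e' ∈ far s e a := by
        rw [mem_far]
        refine ⟨hee, ?_⟩
        rw [p1.2]
        exact h8
      have m4 := (mem_far.1 (n1 m3)).2
      exact m4 (p3.1.trans p1.1.symm)
  -- the classes
  set g : V → Fin 3 := fun x => if x ∈ B then 2 else if x ∈ F then 1 else 0 with hg
  have gB : ∀ x, g x = 2 ↔ x ∈ B := by
    intro x
    simp only [hg]
    split_ifs with u1 u2 <;> simp [u1]
  have gF : ∀ x, g x = 1 ↔ x ∈ F := by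
    intro x
    simp only [hg]
    split_ifs with u1 u2
    · simp only [Fin.reduceEq, false_iff]
      exact fun u3 => (Fv x u3).2 u1
    · simp [u2]
    · simp [u2]
  have g0 : ∀ x, g x = 0 ↔ x ∉ B ∧ x ∉ F := by
    intro x
    simp only [hg]
    split_ifs with u1 u2
    · simp [u1]
    · simp [u2]
    · exact ⟨fun _ => ⟨u1, u2⟩, fun _ => rfl⟩
  -- the description of the classes at every point
  have key : ∀ x, ∃ t : Bool, ∀ z, z ≠ x → (s x z = t ↔ g z = g x - 1) := by
    intro x
    by_cases hxB : x ∈ B
    · refine ⟨!(s x v), fun z hz => ?_⟩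
      rw [(gB x).2 hxB, show (2 : Fin 3) - 1 = 1 from rfl, gF, ← hFb x hxB, mem_far]
      constructor
      · intro u
        exact ⟨hz, by rw [u]; simp⟩
      · rintro ⟨-, u⟩
        revert u
        cases s x z <;> cases s x v <;> simp
    · by_cases hxF : x ∈ F
      · refine ⟨s x v, fun z hz => ?_⟩
        rw [(gF x).2 hxF, show (1 : Fin 3) - 1 = 0 from rfl, g0]
        have q2 := h1' x (Fv x hxF).1 hxB b0 hb0
        constructor
        · intro u
          refine ⟨fun u1 => h1' x (Fv x hxF).1 hxB z u1 u, fun u1 => ?_⟩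
          have := h3 b0 hb0 x hxF z u1 hz.symm
          rw [this] at u
          exact q2 u
        · rintro ⟨u1, u2⟩
          by_cases hzv : z = v
          · rw [hzv]
          · exact (h6 x hxF z hzv u1 u2).1
      · by_cases hxv : x = v
        · refine ⟨!(s v y0), fun z hz => ?_⟩
          rw [(g0 x).2 ⟨hxB, hxF⟩, show (0 : Fin 3) - 1 = 2 from rfl, gB, hxv, hB, mem_far]
          constructor
          · intro u
            exact ⟨by rw [← hxv]; exact hz, by rw [u]; simp⟩
          · rintro ⟨-, u⟩
            revert u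
            cases s v z <;> cases s v y0 <;> simp
        · refine ⟨!(s x v), fun z hz => ?_⟩
          rw [(g0 x).2 ⟨hxB, hxF⟩, show (0 : Fin 3) - 1 = 2 from rfl, gB]
          constructor
          · intro u
            by_contra u1
            have : s x z = s x v := by
              by_cases u2 : z ∈ F
              · exact (h6 z u2 x hxv hxB hxF).2
              · exact h7 x hxv hxB hxF z hz u1 u2
            rw [this] at u
            revert u
            cases s x v <;> simp
          · intro u1
            have := h1' x hxv hxB z u1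
            revert this
            cases s x z <;> cases s x v <;> simp
  have keyiff : ∀ x y z : V, x ≠ y → x ≠ z →
      (s x y = s x z ↔ (g y = g x - 1 ↔ g z = g x - 1)) := by
    intro x y z hxy hxz
    obtain ⟨t, ht⟩ := key x
    rw [← ht y hxy.symm, ← ht z hxz.symm]
    cases s x y <;> cases s x z <;> cases t <;> simp
  refine ⟨g, keyiff, fun i => ?_⟩
  have cB : (univ.filter fun x => g x = 2) = B := by
    ext x
    simp only [mem_filter, mem_univ, true_and]
    exact gB x
  have cF : (univ.filter fun x => g x = 1) = F := by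
    ext x
    simp only [mem_filter, mem_univ, true_and]
    exact gF x
  have c0 : 2 ≤ (univ.filter fun x => g x = 0).card := by
    obtain ⟨a, ha⟩ : F.Nonempty := card_pos.1 (by omega)
    have hab : a ≠ b0 := fun e => (Fv a ha).2 (e ▸ hb0)
    refine (h.two a b0 hab).trans (card_le_card ?_)
    intro z hz
    rw [mem_far] at hz
    simp only [mem_filter, mem_univ, true_and]
    by_contra hcon
    apply hz.2
    have e1 := (gF a).2 ha
    have e2 := (gB b0).2 hb0
    rw [keyiff a z b0 hz.1.symm hab, e1, e2]
    simp [hcon]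
  fin_cases i
  · exact c0
  · change 2 ≤ (univ.filter fun x => g x = 1).card
    rw [cF]
    exact hF2
  · change 2 ≤ (univ.filter fun x => g x = 2).card
    rw [cB]
    exact hB2

/-- All triples of Turán's construction belong to `E`. -/
theorem turan_of (h : Split E s) (hV : ∃ v y : V, v ≠ y) :
    ∃ g : V → Fin 3, (∀ i, 2 ≤ (univ.filter fun x => g x = i).card) ∧
      ∀ x y z : V, x ≠ y → x ≠ z → y ≠ z → g x = g y → (g z = g x ∨ g z = g x + 1) →
        E x y z := by
  obtain ⟨g, hg, hc⟩ := structure_of h hV
  refine ⟨g, hc, ?_⟩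
  intro x y z hxy hxz hyz e1 e2
  obtain ⟨w, hw⟩ : ∃ w, g w = g x - 1 := by
    have := hc (g x - 1)
    obtain ⟨w, hw⟩ : (univ.filter fun u => g u = g x - 1).Nonempty := card_pos.1 (by omega)
    exact ⟨w, (mem_filter.1 hw).2⟩
  have f1 : ∀ i : Fin 3, i ≠ i - 1 := by decide
  have f2 : ∀ i : Fin 3, i + 1 ≠ i - 1 := by decide
  have gx : g x ≠ g x - 1 := f1 _
  have gz : g z ≠ g x - 1 := by
    rcases e2 with e | e
    · rw [e]
      exact f1 _
    · rw [e]
      exact f2 _
  have xw : x ≠ w := fun e => gx (by rw [← hw, ← e])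
  have yw : y ≠ w := fun e => gx (by rw [← hw, ← e, e1])
  have zw : z ≠ w := fun e => gz (by rw [← hw, ← e])
  rcases h.four x y z w hxy hxz xw hyz yw zw with e | e | e | e
  · exact e
  · exfalso
    have := h.same x y w hxy xw yw e
    rw [hg x y w hxy xw, ← e1] at this
    exact gx (this.2 hw)
  · exfalso
    have := h.same x z w hxz xw zw e
    rw [hg x z w hxz xw] at this
    exact gz (this.2 hw)
  · exfalso
    have := h.same y z w hyz yw zw e
    rw [hg y z w hyz yw, ← e1] at this
    exact gz (this.2 hw)

end Pool.Agent.R810.LJ
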