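import Mathlib

/-! The sizes of Turán's constructions. -/

set_option autoImplicit false
open Finset

namespace Pool.Agent.R810.LJ

/-- the number of edges of Turán's construction -/
def tn (n : ℕ) : ℕ :=
  n / 3 * ((n + 1) / 3) * ((n + 2) / 3) + (n / 3).choose 2 * ((n + 1) / 3) +
    ((n + 1) / 3).choose 2 * ((n + 2) / 3) + ((n + 2) / 3).choose 2 * (n / 3)

theorem c2 (m : ℕ) : 2 * ((m.choose 2 : ℕ) : ℤ) = (m : ℤ) * ((m : ℤ) - 1) := by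
  have h : ((m.choose 2 : ℕ) : ℚ) = (m : ℚ) * ((m : ℚ) - 1) / 2 := Nat.cast_choose_two ℚ m
  have h2 : (2 : ℚ) * ((m.choose 2 : ℕ) : ℚ) = (m : ℚ) * ((m : ℚ) - 1) := by rw [h]; ring
  exact_mod_cast h2

theorem tn_zero (q : ℕ) : 6 * (tn (3 * q) : ℤ) = 15 * (q : ℤ) ^ 3 - 9 * (q : ℤ) ^ 2 := by
  have e0 : 3 * q / 3 = q := by omega
  have e1 : (3 * q + 1) / 3 = q := by omega
  have e2 : (3 * q + 2) / 3 = q := by omega
  unfold tn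
  rw [e0, e1, e2]
  push_cast
  linear_combination (9 * (q : ℤ)) * c2 q

theorem tn_one (q : ℕ) : 6 * (tn (3 * q + 1) : ℤ) =
    15 * (q : ℤ) ^ 3 + 6 * (q : ℤ) ^ 2 - 3 * (q : ℤ) := by
  have e0 : (3 * q + 1) / 3 = q := by omega
  have e1 : (3 * q + 1 + 1) / 3 = q := by omega
  have e2 : (3 * q + 1 + 2) / 3 = q + 1 := by omega
  have h := c2 (q + 1)
  unfold tn
  rw [e0, e1, e2]
  push_cast at h ⊢
  linear_combination (3 * (q : ℤ) + 3 * ((q : ℤ) + 1)) * c2 q + (3 * (q : ℤ)) * h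

theorem tn_two (q : ℕ) : 6 * (tn (3 * q + 2) : ℤ) =
    15 * (q : ℤ) ^ 3 + 21 * (q : ℤ) ^ 2 + 6 * (q : ℤ) := by
  have e0 : (3 * q + 2) / 3 = q := by omega
  have e1 : (3 * q + 2 + 1) / 3 = q + 1 := by omega
  have e2 : (3 * q + 2 + 2) / 3 = q + 1 := by omega
  have h := c2 (q + 1)
  unfold tn
  rw [e0, e1, e2]
  push_cast at h ⊢
  linear_combination (3 * ((q : ℤ) + 1)) * c2 q + (3 * (q : ℤ) + 3 * ((q : ℤ) + 1)) * h

/-- six times the number of edges for classes of `a`, `b`, `c` points -/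
def M6 (a b c : ℤ) : ℤ :=
  6 * (a * b * c) + 3 * (a * (a - 1) * b + b * (b - 1) * c + c * (c - 1) * a)

theorem M6_cyc (a b c : ℤ) : M6 a b c = M6 b c a := by unfold M6; ring

theorem M6_eq (c x y : ℤ) : 9 * M6 (c + y) (c + x) c =
    5 * (3 * c + x + y) ^ 3 - 9 * (3 * c + x + y) ^ 2 -
      9 * (2 * c - 1) * (x ^ 2 - x * y + y ^ 2) -
      ((x + y) ^ 3 + (2 * x - y) ^ 2 * (x + 4 * y)) := by
  unfold M6; ring

theorem small : ∀ x y : Fin 10,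
    (((x : ℕ) + (y : ℕ)) % 3 = 0 → 9 * ((x : ℤ) ^ 2 - x * y + y ^ 2) ≤
      ((x : ℤ) + y) ^ 3 + (2 * (x : ℤ) - y) ^ 2 * (x + 4 * y)) ∧
    (((x : ℕ) + (y : ℕ)) % 3 = 1 → 9 * ((x : ℤ) ^ 2 - x * y + y ^ 2) + 6 * ((x : ℤ) + y) - 10 ≤
      ((x : ℤ) + y) ^ 3 + (2 * (x : ℤ) - y) ^ 2 * (x + 4 * y)) ∧
    (((x : ℕ) + (y : ℕ)) % 3 = 2 → 9 * ((x : ℤ) ^ 2 - x * y + y ^ 2) + 6 * ((x : ℤ) + y) - 8 ≤
      ((x : ℤ) + y) ^ 3 + (2 * (x : ℤ) - y) ^ 2 * (x + 4 * y)) := by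
  decide +kernel

theorem large {x y : ℤ} (hx : 0 ≤ x) (hy : 0 ≤ y) (h : 10 ≤ x + y) :
    9 * (x ^ 2 - x * y + y ^ 2) + 6 * (x + y) ≤
      (x + y) ^ 3 + (2 * x - y) ^ 2 * (x + 4 * y) := by
  have h1 : 0 ≤ (2 * x - y) ^ 2 * (x + 4 * y) := by positivity
  have h2 : 9 * (x ^ 2 - x * y + y ^ 2) ≤ 9 * (x + y) ^ 2 := by nlinarith [mul_nonneg hx hy]
  have h3 : 9 * (x + y) ^ 2 + 6 * (x + y) ≤ (x + y) ^ 3 := by
    nlinarith [mul_nonneg (by linarith : (0 : ℤ) ≤ x + y - 10) (sq_nonneg (x + y))]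
  linarith

theorem both (x y : ℕ) :
    ((x + y) % 3 = 0 → 9 * ((x : ℤ) ^ 2 - x * y + y ^ 2) ≤
      ((x : ℤ) + y) ^ 3 + (2 * (x : ℤ) - y) ^ 2 * (x + 4 * y)) ∧
    ((x + y) % 3 = 1 → 9 * ((x : ℤ) ^ 2 - x * y + y ^ 2) + 6 * ((x : ℤ) + y) - 10 ≤
      ((x : ℤ) + y) ^ 3 + (2 * (x : ℤ) - y) ^ 2 * (x + 4 * y)) ∧
    ((x + y) % 3 = 2 → 9 * ((x : ℤ) ^ 2 - x * y + y ^ 2) + 6 * ((x : ℤ) + y) - 8 ≤
      ((x : ℤ) + y) ^ 3 + (2 * (x : ℤ) - y) ^ 2 * (x + 4 * y)) := by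
  by_cases h : x < 10 ∧ y < 10
  · exact small ⟨x, h.1⟩ ⟨y, h.2⟩
  · have h1 : (10 : ℤ) ≤ (x : ℤ) + y := by omega
    have h2 := large (Int.natCast_nonneg x) (Int.natCast_nonneg y) h1
    have h3 : (0 : ℤ) ≤ (x : ℤ) + y := by omega
    refine ⟨fun _ => by linarith, fun _ => by linarith, fun _ => by linarith⟩

theorem Q_nonneg (x y : ℤ) : 0 ≤ x ^ 2 - x * y + y ^ 2 := by
  nlinarith [sq_nonneg (x - y), sq_nonneg x, sq_nonneg y]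

theorem Q_pos {x y : ℤ} (h : ¬ (x = 0 ∧ y = 0)) : 1 ≤ x ^ 2 - x * y + y ^ 2 := by
  by_contra hcon
  push Not at hcon
  have h0 : x ^ 2 - x * y + y ^ 2 = 0 := by
    have := Q_nonneg x y
    omega
  apply h
  have h1 : (2 * x - y) ^ 2 + 3 * y ^ 2 = 0 := by linear_combination 4 * h0
  have h2 : y ^ 2 = 0 := by nlinarith [sq_nonneg (2 * x - y), sq_nonneg y]
  have hy : y = 0 := by simpa using h2
  subst hy
  have h3 : x ^ 2 = 0 := by linear_combination h0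
  exact ⟨by simpa using h3, rfl⟩

theorem M6_min (x y c n : ℕ) (hn : (c + x) + (c + y) + c = n) :
    M6 (c + y) (c + x) c ≤ 6 * (tn n : ℤ) := by
  obtain ⟨b0, b1, b2⟩ := both x y
  have hE := M6_eq c x y
  have hQ := Q_nonneg x y
  have hc : (0 : ℤ) ≤ c := Int.natCast_nonneg c
  rcases (by omega : n % 3 = 0 ∨ n % 3 = 1 ∨ n % 3 = 2) with h | h | h
  · obtain ⟨q, rfl⟩ : ∃ q, n = 3 * q := ⟨n / 3, by omega⟩
    have b := b0 (by omega)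
    have hq : (3 * c + x + y : ℤ) = 3 * q := by omega
    rw [hq] at hE
    have t := tn_zero q
    have m : 0 ≤ (c : ℤ) * ((x : ℤ) ^ 2 - x * y + y ^ 2) := mul_nonneg hc hQ
    have : 9 * M6 (c + y) (c + x) c ≤ 9 * (6 * (tn (3 * q) : ℤ)) := by
      rw [t, hE]
      nlinarith
    linarith
  · obtain ⟨q, rfl⟩ : ∃ q, n = 3 * q + 1 := ⟨n / 3, by omega⟩
    have b := b1 (by omega)
    have hq : (3 * c + x + y : ℤ) = 3 * q + 1 := by omega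
    rw [hq] at hE
    have t := tn_one q
    have hQ1 := Q_pos (x := (x : ℤ)) (y := (y : ℤ)) (by omega)
    have m : 0 ≤ (c : ℤ) * ((x : ℤ) ^ 2 - x * y + y ^ 2 - 1) := mul_nonneg hc (by linarith)
    have : 9 * M6 (c + y) (c + x) c ≤ 9 * (6 * (tn (3 * q + 1) : ℤ)) := by
      rw [t, hE]
      have hq' : (x : ℤ) + y = 3 * q + 1 - 3 * c := by linarith
      nlinarith
    linarith
  · obtain ⟨q, rfl⟩ : ∃ q, n = 3 * q + 2 := ⟨n / 3, by omega⟩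
    have b := b2 (by omega)
    have hq : (3 * c + x + y : ℤ) = 3 * q + 2 := by omega
    rw [hq] at hE
    have t := tn_two q
    have hQ1 := Q_pos (x := (x : ℤ)) (y := (y : ℤ)) (by omega)
    have m : 0 ≤ (c : ℤ) * ((x : ℤ) ^ 2 - x * y + y ^ 2 - 1) := mul_nonneg hc (by linarith)
    have : 9 * M6 (c + y) (c + x) c ≤ 9 * (6 * (tn (3 * q + 2) : ℤ)) := by
      rw [t, hE]
      have hq' : (x : ℤ) + y = 3 * q + 2 - 3 * c := by linarith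
      nlinarith
    linarith

theorem M6_le (a b c n : ℕ) (hn : a + b + c = n) : M6 a b c ≤ 6 * (tn n : ℤ) := by
  rcases (by omega : (c ≤ a ∧ c ≤ b) ∨ (a ≤ b ∧ a ≤ c) ∨ (b ≤ a ∧ b ≤ c)) with h | h | h
  · obtain ⟨x, rfl⟩ := Nat.exists_eq_add_of_le h.1
    obtain ⟨y, rfl⟩ := Nat.exists_eq_add_of_le h.2
    have := M6_min y x c n (by omega)
    push_cast
    exact this
  · obtain ⟨x, rfl⟩ := Nat.exists_eq_add_of_le h.1
    obtain ⟨y, rfl⟩ := Nat.exists_eq_add_of_le h.2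
    have := M6_min y x a n (by omega)
    rw [M6_cyc]
    push_cast
    exact this
  · obtain ⟨x, rfl⟩ := Nat.exists_eq_add_of_le h.1
    obtain ⟨y, rfl⟩ := Nat.exists_eq_add_of_le h.2
    have := M6_min x y b n (by omega)
    rw [M6_cyc, M6_cyc]
    push_cast
    exact this

theorem tn_le (n : ℕ) : 54 * (tn n : ℤ) ≤ 5 * (n : ℤ) ^ 3 := by
  rcases (by omega : n % 3 = 0 ∨ n % 3 = 1 ∨ n % 3 = 2) with h | h | h
  · obtain ⟨q, rfl⟩ : ∃ q, n = 3 * q := ⟨n / 3, by omega⟩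
    have t := tn_zero q
    have hq : (0 : ℤ) ≤ q := Int.natCast_nonneg q
    push_cast
    nlinarith [sq_nonneg (q : ℤ)]
  · obtain ⟨q, rfl⟩ : ∃ q, n = 3 * q + 1 := ⟨n / 3, by omega⟩
    have t := tn_one q
    have hq : (0 : ℤ) ≤ q := Int.natCast_nonneg q
    push_cast
    nlinarith [sq_nonneg (q : ℤ)]
  · obtain ⟨q, rfl⟩ : ∃ q, n = 3 * q + 2 := ⟨n / 3, by omega⟩
    have t := tn_two q
    have hq : (0 : ℤ) ≤ q := Int.natCast_nonneg q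
    push_cast
    nlinarith [sq_nonneg (q : ℤ)]

theorem key2 : ∀ i j k : Fin 3, (i = j ∧ (k = i ∨ k = i + 1)) ∨
    (j = k ∧ (i = j ∨ i = j + 1)) ∨ (k = i ∧ (j = k ∨ j = k + 1)) ∨
    (i ≠ j ∧ i ≠ k ∧ j ≠ k) ∨ (i = j ∧ k = i - 1) ∨ (j = k ∧ i = j - 1) ∨
      (k = i ∧ j = k - 1) := by decide

theorem key3 (i j k : Fin 3) (h1 : ¬ (i = j ∧ (k = i ∨ k = i + 1)))
    (h2 : ¬ (j = k ∧ (i = j ∨ i = j + 1))) (h3 : ¬ (k = i ∧ (j = k ∨ j = k + 1))) :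
    (i ≠ j ∧ i ≠ k ∧ j ≠ k) ∨ (i = j ∧ k = i - 1) ∨ (j = k ∧ i = j - 1) ∨
      (k = i ∧ j = k - 1) := by
  rcases key2 i j k with h | h | h | h
  · exact absurd h h1
  · exact absurd h h2
  · exact absurd h h3
  · exact h

theorem data : ∀ i j l : Fin 3, (i ≠ j ∧ i ≠ l ∧ j ≠ l) ∨ (i = j ∧ l = i - 1) ∨
    (j = l ∧ i = j - 1) ∨ (l = i ∧ j = l - 1) →
    ((∀ k, -i = k ∨ -j = k ∨ -l = k) ∨
      ∃ k, ((if -i = k then 1 else 0) + ((if -j = k then 1 else 0) + (if -l = k then 1 else 0)) = 2 ∧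
      (if -i = k + 1 then 1 else 0) + ((if -j = k + 1 then 1 else 0) +
        (if -l = k + 1 then 1 else 0)) = 1)) := by
  decide

end Pool.Agent.R810.LJ
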