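import Pool.Agent.R810.LJ.Core
import Pool.Agent.R810.LJ.Num

/-! Counting ordered triples. -/

set_option autoImplicit false
open Finset
open scoped Classical

namespace Pool.Agent.R810.LJ

variable {V : Type*} [Fintype V]

/-- 1 or 0 -/
noncomputable def ind (p : Prop) : ℤ := if p then 1 else 0

theorem ind_nonneg (p : Prop) : 0 ≤ ind p := by
  unfold ind
  split_ifs <;> norm_num

theorem ind_t {p : Prop} (h : p) : ind p = 1 := if_pos h

theorem ind_f {p : Prop} (h : ¬ p) : ind p = 0 := if_neg h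

/-- the size of a class -/
noncomputable def w (g : V → Fin 3) (i : Fin 3) : ℕ := (univ.filter fun x => g x = i).card

theorem sum_fib (g : V → Fin 3) (F : Fin 3 → ℤ) : ∑ x, F (g x) = ∑ i, (w g i : ℤ) * F i := by
  have h := sum_fiberwise_of_maps_to (s := (univ : Finset V)) (t := (univ : Finset (Fin 3)))
    (g := g) (fun x _ => mem_univ _) (fun x => F (g x))
  rw [← h]
  refine sum_congr rfl fun i _ => ?_
  rw [sum_congr rfl (g := fun _ => F i) (fun x hx => by rw [(mem_filter.1 hx).2]), sum_const,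
    nsmul_eq_mul]
  rfl

theorem sum_fib3 (g : V → Fin 3) (F : Fin 3 → Fin 3 → Fin 3 → ℤ) :
    ∑ x, ∑ y, ∑ z, F (g x) (g y) (g z) =
      ∑ i, (w g i : ℤ) * ∑ j, (w g j : ℤ) * ∑ k, (w g k : ℤ) * F i j k := by
  rw [← sum_fib g]
  refine sum_congr rfl fun x _ => ?_
  rw [← sum_fib g]
  refine sum_congr rfl fun y _ => ?_
  rw [← sum_fib g]

theorem sum_fib2 (g : V → Fin 3) (F : Fin 3 → Fin 3 → ℤ) :
    ∑ x, ∑ y, F (g x) (g y) = ∑ i, (w g i : ℤ) * ∑ j, (w g j : ℤ) * F i j := by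
  rw [← sum_fib g]
  refine sum_congr rfl fun x _ => ?_
  rw [← sum_fib g]

theorem w_sum (g : V → Fin 3) : w g 0 + w g 1 + w g 2 = Fintype.card V := by
  have h := sum_fib g (fun _ => (1 : ℤ))
  rw [sum_const, Fin.sum_univ_three, card_univ, nsmul_eq_mul] at h
  have h2 : ((w g 0 + w g 1 + w g 2 : ℕ) : ℤ) = (Fintype.card V : ℤ) := by
    push_cast
    linarith
  exact_mod_cast h2

/-- two points in a class and one in the preceding class -/
def bb (i j k : Fin 3) : Prop := i = j ∧ k = i - 1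

/-- three different classes -/
def aa (i j k : Fin 3) : Prop := i ≠ j ∧ i ≠ k ∧ j ≠ k

/-- the number of ordered pairs with a third point -/
theorem sum_bb (g : V → Fin 3) :
    ∑ x, ∑ y, ∑ z, ind (x ≠ y ∧ bb (g x) (g y) (g z)) =
      (w g 1 : ℤ) * (w g 1 - 1) * w g 0 + (w g 2 : ℤ) * (w g 2 - 1) * w g 1 +
        (w g 0 : ℤ) * (w g 0 - 1) * w g 2 := by
  have e1 : ∀ x y z : V, ind (x ≠ y ∧ bb (g x) (g y) (g z)) =
      ind (bb (g x) (g y) (g z)) - (if x = y then ind (bb (g x) (g x) (g z)) else 0) := by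
    intro x y z
    by_cases h : x = y
    · subst h
      rw [ind_f (fun h => h.1 rfl), if_pos rfl]
      ring
    · rw [if_neg h, sub_zero]
      congr 1
      simp [h]
  have e2 : ∑ x, ∑ y, ∑ z, ind (x ≠ y ∧ bb (g x) (g y) (g z)) =
      ∑ x, ∑ y, ∑ z, ind (bb (g x) (g y) (g z)) - ∑ x, ∑ z, ind (bb (g x) (g x) (g z)) := by
    rw [← sum_sub_distrib]
    refine sum_congr rfl fun x _ => ?_
    have e3 : ∀ y, ∑ z, ind (x ≠ y ∧ bb (g x) (g y) (g z)) =
        ∑ z, ind (bb (g x) (g y) (g z)) -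
          (if x = y then ∑ z, ind (bb (g x) (g x) (g z)) else 0) := by
      intro y
      rw [sum_congr rfl fun z _ => e1 x y z, sum_sub_distrib]
      congr 1
      split_ifs with h
      · rfl
      · exact sum_const_zero
    rw [sum_congr rfl fun y _ => e3 y, sum_sub_distrib, sum_ite_eq univ x, if_pos (mem_univ _)]
  rw [e2, sum_fib3 g (fun i j k => ind (bb i j k)), sum_fib2 g (fun i j => ind (bb i i j))]
  simp only [Fin.sum_univ_three]
  have q : ∀ i j k : Fin 3, ind (bb i j k) = if i = j ∧ k = i - 1 then 1 else 0 := by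
    intro i j k
    unfold ind bb
    congr
  simp only [q]
  norm_num [Fin.ext_iff]
  have s2 : ((2 : Fin 3) - 1 : Fin 3).val = 1 := rfl
  simp only [s2]
  norm_num
  ring

theorem sum_aa (g : V → Fin 3) :
    ∑ x, ∑ y, ∑ z, ind (aa (g x) (g y) (g z)) = 6 * ((w g 0 : ℤ) * w g 1 * w g 2) := by
  rw [sum_fib3 g (fun i j k => ind (aa i j k))]
  simp only [Fin.sum_univ_three]
  have q : ∀ i j k : Fin 3, ind (aa i j k) = if i ≠ j ∧ i ≠ k ∧ j ≠ k then 1 else 0 := by
    intro i j k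
    unfold ind aa
    congr
  simp only [q]
  norm_num [Fin.ext_iff]
  ring

/-- The number of ordered triples of a set of triples contained in Turán's construction. -/
theorem ordered_le (g : V → Fin 3) (P : V → V → V → Prop)
    (h1 : ∀ x y z, P x y z → x ≠ y ∧ x ≠ z ∧ y ≠ z)
    (h2 : ∀ x y z, P x y z → aa (g x) (g y) (g z) ∨ bb (g x) (g y) (g z) ∨
      bb (g y) (g z) (g x) ∨ bb (g z) (g x) (g y)) :
    ∑ x, ∑ y, ∑ z, ind (P x y z) ≤ 6 * (tn (Fintype.card V) : ℤ) := by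
  have e1 : ∀ x y z, ind (P x y z) ≤ ind (aa (g x) (g y) (g z)) +
      ind (x ≠ y ∧ bb (g x) (g y) (g z)) + ind (y ≠ z ∧ bb (g y) (g z) (g x)) +
      ind (z ≠ x ∧ bb (g z) (g x) (g y)) := by
    intro x y z
    have p1 := ind_nonneg (aa (g x) (g y) (g z))
    have p2 := ind_nonneg (x ≠ y ∧ bb (g x) (g y) (g z))
    have p3 := ind_nonneg (y ≠ z ∧ bb (g y) (g z) (g x))
    have p4 := ind_nonneg (z ≠ x ∧ bb (g z) (g x) (g y))
    by_cases h : P x y z
    · obtain ⟨d1, d2, d3⟩ := h1 x y z h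
      rw [ind_t h]
      rcases h2 x y z h with h3 | h3 | h3 | h3
      · have := ind_t h3
        linarith
      · have := ind_t (show x ≠ y ∧ bb (g x) (g y) (g z) from ⟨d1, h3⟩)
        linarith
      · have := ind_t (show y ≠ z ∧ bb (g y) (g z) (g x) from ⟨d3, h3⟩)
        linarith
      · have := ind_t (show z ≠ x ∧ bb (g z) (g x) (g y) from ⟨d2.symm, h3⟩)
        linarith
    · rw [ind_f h]
      linarith
  have e2 : ∑ x, ∑ y, ∑ z, ind (y ≠ z ∧ bb (g y) (g z) (g x)) =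
      ∑ x, ∑ y, ∑ z, ind (x ≠ y ∧ bb (g x) (g y) (g z)) := by
    rw [sum_comm]
    refine sum_congr rfl fun y _ => ?_
    rw [sum_comm]
  have e3 : ∑ x, ∑ y, ∑ z, ind (z ≠ x ∧ bb (g z) (g x) (g y)) =
      ∑ x, ∑ y, ∑ z, ind (x ≠ y ∧ bb (g x) (g y) (g z)) := by
    rw [sum_congr rfl fun x _ => sum_comm, sum_comm]
  have e4 : ∑ x, ∑ y, ∑ z, ind (P x y z) ≤
      ∑ x, ∑ y, ∑ z, ind (aa (g x) (g y) (g z)) +
      ∑ x, ∑ y, ∑ z, ind (x ≠ y ∧ bb (g x) (g y) (g z)) +
      ∑ x, ∑ y, ∑ z, ind (y ≠ z ∧ bb (g y) (g z) (g x)) +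
      ∑ x, ∑ y, ∑ z, ind (z ≠ x ∧ bb (g z) (g x) (g y)) := by
    simp only [← sum_add_distrib]
    exact sum_le_sum fun x _ => sum_le_sum fun y _ => sum_le_sum fun z _ => e1 x y z
  rw [e2, e3, sum_aa, sum_bb] at e4
  have e5 := M6_le (w g 1) (w g 0) (w g 2) (Fintype.card V) (by rw [← w_sum g]; ring)
  unfold M6 at e5
  linarith

end Pool.Agent.R810.LJ
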