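import Mathlib

/-! Finite facts on the classes. -/

set_option autoImplicit false

namespace Pool.Agent.R810.LJ

/-- the class pattern of an edge of Turán's construction -/
def pat (i j l : Fin 3) : Bool :=
  (decide (i ≠ j) && decide (i ≠ l) && decide (j ≠ l)) ||
  (decide (i = j) && decide (l = i + 1)) || (decide (j = l) && decide (i = j + 1)) ||
  (decide (l = i) && decide (j = l + 1))

theorem pat_iff : ∀ i j l : Fin 3, ((∀ k, i = k ∨ j = k ∨ l = k) ∨
      ∃ k, ((if i = k then 1 else 0) + ((if j = k then 1 else 0) + (if l = k then 1 else 0)) = 2 ∧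
      (if i = k + 1 then 1 else 0) + ((if j = k + 1 then 1 else 0) +
        (if l = k + 1 then 1 else 0)) = 1)) ↔ pat i j l = true := by
  decide

theorem pat_four : ∀ i j k l : Fin 3, pat i j k = false ∨ pat i j l = false ∨
    pat i k l = false ∨ pat j k l = false := by
  decide

theorem pat_allowed : ∀ i j l : Fin 3, pat i j l = true →
    ((-i ≠ -j ∧ -i ≠ -l ∧ -j ≠ -l) ∨ (-i = -j ∧ -l = -i - 1) ∨
      (-j = -l ∧ -i = -j - 1) ∨ (-l = -i ∧ -j = -l - 1)) := by
  decide

theorem pat_cross : ∀ i j l : Fin 3, j = i + 1 → l ≠ i + 1 → pat i j l = true := by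
  decide

theorem pat_sum : ∀ i j l : Fin 3, (if pat i j l = true then (1 : ℤ) else 0) =
    (if -i ≠ -j ∧ -i ≠ -l ∧ -j ≠ -l then 1 else 0) + (if -i = -j ∧ -l = -i - 1 then 1 else 0) +
      (if -j = -l ∧ -i = -j - 1 then 1 else 0) + (if -l = -i ∧ -j = -l - 1 then 1 else 0) := by
  decide

theorem pat_ii : ∀ i : Fin 3, pat i i i = false := by decide

end Pool.Agent.R810.LJ
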