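import Pool.Agent.R810.LJ.Count

/-! The exact bound. -/

set_option autoImplicit false
open Finset
open scoped Classical

namespace Pool.Agent.R810.LJ

/-- The assumptions in terms of the edges `P`: every two points in different classes at `v` form
an edge with `v`. -/
structure Join {V : Type*} [Fintype V] [DecidableEq V] (P : V → V → V → Prop)
    (s : V → V → Bool) : Prop where
  four : ∀ a b c d : V, a ≠ b → a ≠ c → a ≠ d → b ≠ c → b ≠ d → c ≠ d →
    P a b c → P a b d → P a c d → P b c d → False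
  swap : ∀ a b c : V, P a b c → P b a c
  rot : ∀ a b c : V, P a b c → P b c a
  dist : ∀ a b c : V, P a b c → a ≠ b ∧ a ≠ c ∧ b ≠ c
  cross : ∀ v x y : V, v ≠ x → v ≠ y → x ≠ y → s v x ≠ s v y → P v x y
  two : ∀ v y : V, v ≠ y → 2 ≤ (far s v y).card

theorem Join.split {V : Type*} [Fintype V] [DecidableEq V] {P : V → V → V → Prop}
    {s : V → V → Bool} (h : Join P s) : Split (fun x y z => ¬ P x y z) s where
  four a b c d h1 h2 h3 h4 h5 h6 := by
    by_contra hcon
    push Not at hcon
    exact h.four a b c d h1 h2 h3 h4 h5 h6 hcon.1 hcon.2.1 hcon.2.2.1 hcon.2.2.2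
  swap a b c h1 h2 := h1 (h.swap _ _ _ h2)
  rot a b c h1 h2 := h1 (h.rot _ _ _ (h.rot _ _ _ h2))
  same a b c h1 h2 h3 h4 := by
    by_contra hcon
    exact h4 (h.cross a b c h1 h2 h3 hcon)
  two := h.two

/-- the edges in terms of the classes -/
theorem Join.allowed {V : Type*} [Fintype V] [DecidableEq V] {P : V → V → V → Prop}
    {s : V → V → Bool} (h : Join P s) (hV : ∃ v y : V, v ≠ y) :
    ∃ g : V → Fin 3, (∀ i, 2 ≤ (univ.filter fun x => g x = i).card) ∧
      ∀ x y z, P x y z → aa (g x) (g y) (g z) ∨ bb (g x) (g y) (g z) ∨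
        bb (g y) (g z) (g x) ∨ bb (g z) (g x) (g y) := by
  obtain ⟨g, hg, hE⟩ := turan_of h.split hV
  refine ⟨g, hg, fun x y z hP => ?_⟩
  obtain ⟨d1, d2, d3⟩ := h.dist x y z hP
  refine key3 (g x) (g y) (g z) ?_ ?_ ?_
  · rintro ⟨h1, h2⟩
    exact hE x y z d1 d2 d3 h1 h2 hP
  · rintro ⟨h1, h2⟩
    exact hE y z x d3 d1.symm d2.symm h1 h2 (h.rot _ _ _ hP)
  · rintro ⟨h1, h2⟩
    exact hE z x y d2.symm d3.symm d1 h1 h2 (h.rot _ _ _ (h.rot _ _ _ hP))

theorem Join.bound {V : Type*} [Fintype V] [DecidableEq V] {P : V → V → V → Prop}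
    {s : V → V → Bool} (h : Join P s) (hV : ∃ v y : V, v ≠ y) :
    ∑ x, ∑ y, ∑ z, ind (P x y z) ≤ 6 * (tn (Fintype.card V) : ℤ) := by
  obtain ⟨g, -, hg⟩ := h.allowed hV
  exact ordered_le g P h.dist hg

/-! ### Sets of triples -/

variable {n : ℕ}

/-- no four vertices have all their four triples in `H` -/
def K43Free (H : Finset (Finset (Fin n))) : Prop :=
  ∀ S : Finset (Fin n), S.card = 4 → ∃ e ⊆ S, e.card = 3 ∧ e ∉ H

theorem card4 {a b c d : Fin n} (h1 : a ≠ b) (h2 : a ≠ c) (h3 : a ≠ d) (h4 : b ≠ c) (h5 : b ≠ d)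
    (h6 : c ≠ d) : ({a, b, c, d} : Finset (Fin n)).card = 4 := by
  rw [card_insert_of_notMem, card_insert_of_notMem, card_insert_of_notMem, card_singleton] <;>
    simp [*]

theorem four_of (H : Finset (Finset (Fin n))) (hK : K43Free H) {a b c d : Fin n} (h1 : a ≠ b)
    (h2 : a ≠ c) (h3 : a ≠ d) (h4 : b ≠ c) (h5 : b ≠ d) (h6 : c ≠ d)
    (p1 : ({a, b, c} : Finset (Fin n)) ∈ H) (p2 : ({a, b, d} : Finset (Fin n)) ∈ H)
    (p3 : ({a, c, d} : Finset (Fin n)) ∈ H) (p4 : ({b, c, d} : Finset (Fin n)) ∈ H) : False := by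
  obtain ⟨e, he, hc, hH⟩ := hK {a, b, c, d} (card4 h1 h2 h3 h4 h5 h6)
  have h7 : (({a, b, c, d} : Finset (Fin n)) \ e).card = 1 := by
    rw [card_sdiff_of_subset he, card4 h1 h2 h3 h4 h5 h6, hc]
  obtain ⟨t, ht⟩ := card_eq_one.1 h7
  have he' : e = ({a, b, c, d} : Finset (Fin n)) \ {t} := by
    rw [← ht, Finset.sdiff_sdiff_eq_self he]
  have htS : t ∈ ({a, b, c, d} : Finset (Fin n)) := by
    have : t ∈ ({a, b, c, d} : Finset (Fin n)) \ e := by rw [ht]; exact mem_singleton_self t
    exact (mem_sdiff.1 this).1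
  simp only [mem_insert, mem_singleton] at htS
  apply hH
  rw [he']
  rcases htS with rfl | rfl | rfl | rfl
  · convert p4 using 1
    ext x
    simp only [mem_sdiff, mem_insert, mem_singleton]
    constructor
    · rintro ⟨h8, h9⟩
      tauto
    · rintro (rfl | rfl | rfl) <;> simp [*, Ne.symm]
      all_goals first | exact h1.symm | exact h2.symm | exact h3.symm
  · convert p3 using 1
    ext x
    simp only [mem_sdiff, mem_insert, mem_singleton]
    constructor
    · rintro ⟨h8, h9⟩
      tauto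
    · rintro (rfl | rfl | rfl)
      · exact ⟨by simp, h1⟩
      · exact ⟨by simp, h4.symm⟩
      · exact ⟨by simp, h5.symm⟩
  · convert p2 using 1
    ext x
    simp only [mem_sdiff, mem_insert, mem_singleton]
    constructor
    · rintro ⟨h8, h9⟩
      tauto
    · rintro (rfl | rfl | rfl)
      · exact ⟨by simp, h2⟩
      · exact ⟨by simp, h4⟩
      · exact ⟨by simp, h6.symm⟩
  · convert p1 using 1
    ext x
    simp only [mem_sdiff, mem_insert, mem_singleton]
    constructor
    · rintro ⟨h8, h9⟩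
      tauto
    · rintro (rfl | rfl | rfl)
      · exact ⟨by simp, h3⟩
      · exact ⟨by simp, h5⟩
      · exact ⟨by simp, h6⟩

theorem dist_of {H : Finset (Finset (Fin n))} (h3 : ∀ e ∈ H, e.card = 3) {x y z : Fin n}
    (h : ({x, y, z} : Finset (Fin n)) ∈ H) : x ≠ y ∧ x ≠ z ∧ y ≠ z := by
  have hc := h3 _ h
  refine ⟨?_, ?_, ?_⟩
  · rintro rfl
    rw [insert_eq_of_mem (by simp)] at hc
    have := card_le_two (a := x) (b := z)
    omega
  · rintro rfl
    rw [insert_eq_of_mem (by simp)] at hc
    have := card_le_two (a := y) (b := x)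
    omega
  · rintro rfl
    rw [pair_eq_singleton] at hc
    have := card_le_two (a := x) (b := y)
    omega

theorem swap_set (x y z : Fin n) : ({x, y, z} : Finset (Fin n)) = {y, x, z} := insert_comm _ _ _

theorem rot_set (x y z : Fin n) : ({x, y, z} : Finset (Fin n)) = {y, z, x} := by
  ext t
  simp only [mem_insert, mem_singleton]
  tauto

/-- Six times the number of edges is at most the number of ordered edges. -/
theorem six_le {H : Finset (Finset (Fin n))} (h3 : ∀ e ∈ H, e.card = 3) :
    6 * (H.card : ℤ) ≤ ∑ x : Fin n, ∑ y : Fin n, ∑ z : Fin n,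
      ind (({x, y, z} : Finset (Fin n)) ∈ H) := by
  set T : Finset (Fin n × Fin n × Fin n) :=
    univ.filter fun t => ({t.1, t.2.1, t.2.2} : Finset (Fin n)) ∈ H with hT
  have e1 : ∑ x : Fin n, ∑ y : Fin n, ∑ z : Fin n, ind (({x, y, z} : Finset (Fin n)) ∈ H) =
      (T.card : ℤ) := by
    rw [hT, card_filter, Fintype.sum_prod_type]
    push_cast
    refine sum_congr rfl fun a _ => ?_
    rw [Fintype.sum_prod_type]
    refine sum_congr rfl fun b _ => sum_congr rfl fun c _ => ?_
    unfold ind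
    split_ifs <;> simp_all
  have hfw := card_eq_sum_card_fiberwise (s := T)
    (f := fun t : Fin n × Fin n × Fin n => ({t.1, t.2.1, t.2.2} : Finset (Fin n)))
    (t := H) (fun t ht => (mem_filter.mp (mem_coe.mp ht)).2)
  rw [e1, hfw]
  have e2 : ∑ _e ∈ H, 6 ≤ ∑ e ∈ H, (T.filter fun t : Fin n × Fin n × Fin n =>
      ({t.1, t.2.1, t.2.2} : Finset (Fin n)) = e).card := by
    refine sum_le_sum fun e he => ?_
    obtain ⟨a, b, c, hab, hac, hbc, rfl⟩ := Finset.card_eq_three.mp (h3 e he)
    have hsub : ({(a, b, c), (a, c, b), (b, a, c), (b, c, a), (c, a, b), (c, b, a)} :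
        Finset (Fin n × Fin n × Fin n)) ⊆ T.filter (fun t : Fin n × Fin n × Fin n =>
        ({t.1, t.2.1, t.2.2} : Finset (Fin n)) = {a, b, c}) := by
      intro t ht
      have h5 : ({t.1, t.2.1, t.2.2} : Finset (Fin n)) = {a, b, c} := by
        simp only [mem_insert, mem_singleton] at ht
        rcases ht with rfl | rfl | rfl | rfl | rfl | rfl <;> ext u <;>
          simp only [mem_insert, mem_singleton] <;> tauto
      rw [mem_filter, hT, mem_filter]
      exact ⟨⟨mem_univ _, by rw [h5]; exact he⟩, h5⟩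
    refine le_trans ?_ (card_le_card hsub)
    have h6 : ({(a, b, c), (a, c, b), (b, a, c), (b, c, a), (c, a, b), (c, b, a)} :
        Finset (Fin n × Fin n × Fin n)).card = 6 := by
      repeat rw [card_insert_of_notMem]
      · simp
      all_goals simp [hab, hac, hbc, hab.symm, hac.symm, hbc.symm]
    rw [h6]
  rw [sum_const, smul_eq_mul] at e2
  have e3 : ((H.card * 6 : ℕ) : ℤ) ≤ ((∑ e ∈ H, (T.filter fun t : Fin n × Fin n × Fin n =>
      ({t.1, t.2.1, t.2.2} : Finset (Fin n)) = e).card : ℕ) : ℤ) := by exact_mod_cast e2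
  push_cast at e3 ⊢
  linarith

/-- the vertices other than `v` are divided into `A` and `B` -/
def Divides (v : Fin n) (A B : Finset (Fin n)) : Prop := Disjoint A B ∧ A ∪ B = univ.erase v

theorem Divides.mem {v : Fin n} {A B : Finset (Fin n)} (h : Divides v A B) {x : Fin n} :
    x ≠ v ↔ x ∈ A ∨ x ∈ B := by
  have := congrArg (fun S => x ∈ S) h.2
  simp only [mem_union, mem_erase, mem_univ, and_true, eq_iff_iff] at this
  tauto

theorem Divides.notB {v : Fin n} {A B : Finset (Fin n)} (h : Divides v A B) {x : Fin n}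
    (hx : x ∈ A) : x ∉ B := fun hB => disjoint_left.1 h.1 hx hB

/-- the link of `v` is a join of two graphs with at least two vertices each -/
def JoinLink (H : Finset (Finset (Fin n))) (v : Fin n) : Prop :=
  ∃ A B : Finset (Fin n), Divides v A B ∧ 2 ≤ A.card ∧ 2 ≤ B.card ∧
    ∀ a ∈ A, ∀ b ∈ B, ({v, a, b} : Finset (Fin n)) ∈ H

theorem far_eq {A B : Fin n → Finset (Fin n)} (h : ∀ v, Divides v (A v) (B v)) {v y : Fin n}
    (hvy : v ≠ y) : far (fun v x => decide (x ∈ A v)) v y = A v ∨
      far (fun v x => decide (x ∈ A v)) v y = B v := by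
  by_cases hy : y ∈ A v
  · right
    ext x
    rw [mem_far]
    constructor
    · rintro ⟨h1, h2⟩
      rcases (h v).mem.1 h1 with h3 | h3
      · exact absurd (by simp [h3, hy]) h2
      · exact h3
    · intro h1
      refine ⟨(h v).mem.2 (Or.inr h1), ?_⟩
      have : x ∉ A v := fun h2 => (h v).notB h2 h1
      simp [this, hy]
  · left
    ext x
    rw [mem_far]
    constructor
    · rintro ⟨h1, h2⟩
      by_contra h3
      exact h2 (by simp [h3, hy])
    · intro h1
      exact ⟨(h v).mem.2 (Or.inl h1), by simp [h1, hy]⟩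

theorem join_of {H : Finset (Finset (Fin n))} (h3 : ∀ e ∈ H, e.card = 3) (hK : K43Free H)
    {A B : Fin n → Finset (Fin n)} (h : ∀ v, Divides v (A v) (B v)) (hA : ∀ v, 2 ≤ (A v).card)
    (hB : ∀ v, 2 ≤ (B v).card)
    (hAB : ∀ v, ∀ a ∈ A v, ∀ b ∈ B v, ({v, a, b} : Finset (Fin n)) ∈ H) :
    Join (fun x y z => ({x, y, z} : Finset (Fin n)) ∈ H) (fun v x => decide (x ∈ A v)) where
  four a b c d h1 h2 h4 h5 h6 h7 p1 p2 p3 p4 := four_of H hK h1 h2 h4 h5 h6 h7 p1 p2 p3 p4
  swap a b c p := by
    rw [swap_set]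
    exact p
  rot a b c p := by
    rw [← rot_set]
    exact p
  dist a b c p := dist_of h3 p
  cross v x y h1 h2 h4 h5 := by
    rcases (h v).mem.1 h1.symm with hx | hx <;> rcases (h v).mem.1 h2.symm with hy | hy
    · exact absurd (by simp [hx, hy]) h5
    · exact hAB v x hx y hy
    · rw [← pair_comm y x]
      exact hAB v y hy x hx
    · have hx' : x ∉ A v := fun h6 => (h v).notB h6 hx
      have hy' : y ∉ A v := fun h6 => (h v).notB h6 hy
      exact absurd (by simp [hx', hy']) h5
  two v y hvy := by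
    rcases far_eq h hvy with e | e
    · rw [e]
      exact hA v
    · rw [e]
      exact hB v

/-- Turán's construction for the classes of `g`: the triples which meet all three classes, and the
triples with two vertices in a class and one vertex in the (cyclically) next class. -/
def turanGraph (g : Fin n → Fin 3) : Finset (Finset (Fin n)) :=
  univ.filter fun e => e.card = 3 ∧ ((∀ k, ∃ x ∈ e, g x = k) ∨
    ∃ k, (e.filter fun x => g x = k).card = 2 ∧ (e.filter fun x => g x = k + 1).card = 1)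

theorem filter_three (g : Fin n → Fin 3) {x y z : Fin n} (h1 : x ≠ y) (h2 : x ≠ z) (h3 : y ≠ z)
    (k : Fin 3) : (({x, y, z} : Finset (Fin n)).filter fun u => g u = k).card =
      (if g x = k then 1 else 0) + ((if g y = k then 1 else 0) + (if g z = k then 1 else 0)) := by
  rw [card_filter, sum_insert (by simp [h1, h2]), sum_insert (by simp [h3]), sum_singleton]

theorem main_structure {H : Finset (Finset (Fin n))} (hn : 0 < n) (h3 : ∀ e ∈ H, e.card = 3)
    (hK : K43Free H) (hJ : ∀ v, JoinLink H v) :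
    (∃ g : Fin n → Fin 3, (∀ i, 2 ≤ (univ.filter fun x => g x = i).card) ∧ H ⊆ turanGraph g) ∧
      H.card ≤ tn n := by
  choose A B h hA hB hAB using hJ
  have hj := join_of h3 hK h hA hB hAB
  have hV : ∃ v y : Fin n, v ≠ y := by
    obtain ⟨y, hy⟩ : (A ⟨0, hn⟩).Nonempty := card_pos.1 (by have := hA ⟨0, hn⟩; omega)
    exact ⟨⟨0, hn⟩, y, ((h ⟨0, hn⟩).mem.2 (Or.inl hy)).symm⟩
  constructor
  · obtain ⟨g, hg, hP⟩ := hj.allowed hV
    refine ⟨fun x => - g x, fun i => ?_, fun e he => ?_⟩
    · have h5 : (univ.filter fun x => - g x = i) = univ.filter fun x => g x = -i := by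
        ext x
        simp only [mem_filter, mem_univ, true_and]
        constructor
        · intro h6
          rw [← h6, neg_neg]
        · intro h6
          rw [h6, neg_neg]
      rw [h5]
      exact hg (-i)
    · obtain ⟨x, y, z, d1, d2, d3, rfl⟩ := card_eq_three.1 (h3 e he)
      have h5 := data (g x) (g y) (g z) (hP x y z he)
      unfold turanGraph
      rw [mem_filter]
      refine ⟨mem_univ _, h3 _ he, ?_⟩
      rcases h5 with h5 | ⟨k, h5, h6⟩
      · left
        intro k
        rcases h5 k with h6 | h6 | h6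
        · exact ⟨x, by simp, h6⟩
        · exact ⟨y, by simp, h6⟩
        · exact ⟨z, by simp, h6⟩
      · right
        refine ⟨k, ?_, ?_⟩
        · rw [filter_three (fun x => - g x) d1 d2 d3]
          exact h5
        · rw [filter_three (fun x => - g x) d1 d2 d3]
          exact h6
  · have h5 := hj.bound hV
    have h6 := six_le h3
    rw [Fintype.card_fin] at h5
    have : 6 * (H.card : ℤ) ≤ 6 * (tn n : ℤ) := h6.trans h5
    have h7 : (H.card : ℤ) ≤ (tn n : ℤ) := by linarith
    exact_mod_cast h7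

end Pool.Agent.R810.LJ
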