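import Pool.Agent.R810.LJ.Samp

/-! The bound for 3-graphs almost all of whose links are nearly joins. -/

set_option autoImplicit false
open Finset
open scoped Classical

namespace Pool.Agent.R810.LJ

variable {n k : ℕ}

/-- a missing crossing pair -/
def miss (H : Finset (Finset (Fin n))) (A B : Fin n → Finset (Fin n)) (X : Finset (Fin n))
    (v a b : Fin n) : Prop := v ∉ X ∧ a ∈ A v ∧ b ∈ B v ∧ ({v, a, b} : Finset (Fin n)) ∉ H

/-- no further value in the class -/
def few (A : Fin n → Finset (Fin n)) (X : Finset (Fin n)) (f : Fin k → Fin n)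
    (t : Fin k × Fin k × Fin k) : Prop :=
  f t.1 ∉ X ∧ ∀ m, m ≠ t.1 → m ≠ t.2.1 → m ≠ t.2.2 → f m ∉ A (f t.1)

/-- the number of reasons why `f` is bad -/
noncomputable def beta (H : Finset (Finset (Fin n))) (A B : Fin n → Finset (Fin n))
    (X : Finset (Fin n)) (f : Fin k → Fin n) (t : Fin k × Fin k × Fin k) : ℤ :=
  ind (f t.1 = f t.2.1) + ind (f t.1 ∈ X) + ind (miss H A B X (f t.1) (f t.2.1) (f t.2.2)) +
    ind (few A X f t) + ind (few B X f t)

theorem beta_nonneg (H : Finset (Finset (Fin n))) (A B : Fin n → Finset (Fin n))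
    (X : Finset (Fin n)) (f : Fin k → Fin n) (t : Fin k × Fin k × Fin k) :
    0 ≤ beta H A B X f t := by
  unfold beta
  have h1 := ind_nonneg (f t.1 = f t.2.1)
  have h2 := ind_nonneg (f t.1 ∈ X)
  have h3 := ind_nonneg (miss H A B X (f t.1) (f t.2.1) (f t.2.2))
  have h4 := ind_nonneg (few A X f t)
  have h5 := ind_nonneg (few B X f t)
  linarith

theorem ind_zero {p : Prop} (h : ind p = 0) : ¬ p := by
  intro hp
  rw [ind_t hp] at h
  norm_num at h

theorem beta_zero {H : Finset (Finset (Fin n))} {A B : Fin n → Finset (Fin n)}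
    {X : Finset (Fin n)} {f : Fin k → Fin n} {t : Fin k × Fin k × Fin k}
    (h : beta H A B X f t = 0) :
    f t.1 ≠ f t.2.1 ∧ f t.1 ∉ X ∧ ¬ miss H A B X (f t.1) (f t.2.1) (f t.2.2) ∧
      ¬ few A X f t ∧ ¬ few B X f t := by
  unfold beta at h
  have h1 := ind_nonneg (f t.1 = f t.2.1)
  have h2 := ind_nonneg (f t.1 ∈ X)
  have h3 := ind_nonneg (miss H A B X (f t.1) (f t.2.1) (f t.2.2))
  have h4 := ind_nonneg (few A X f t)
  have h5 := ind_nonneg (few B X f t)
  exact ⟨ind_zero (by linarith), ind_zero (by linarith), ind_zero (by linarith),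
    ind_zero (by linarith), ind_zero (by linarith)⟩

/-- two indices with values in the class -/
theorem two_of (hk : 3 ≤ k) {A : Fin n → Finset (Fin n)} {X : Finset (Fin n)}
    {f : Fin k → Fin n} (hX : ∀ i, f i ∉ X) (h : ∀ t ∈ D k, ¬ few A X f t) (v : Fin k) :
    2 ≤ (univ.filter fun m => m ≠ v ∧ f m ∈ A (f v)).card := by
  have hc : (univ.erase v).card = k - 1 := by
    rw [card_erase_of_mem (mem_univ _), card_univ, Fintype.card_fin]
  obtain ⟨j, hj⟩ : (univ.erase v).Nonempty := card_pos.1 (by omega)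
  have hc2 : ((univ.erase v).erase j).card = k - 2 := by
    rw [card_erase_of_mem hj, hc]
    omega
  obtain ⟨l, hl⟩ : ((univ.erase v).erase j).Nonempty := card_pos.1 (by omega)
  have jv : j ≠ v := (mem_erase.1 hj).1
  have lj : l ≠ j := (mem_erase.1 hl).1
  have lv : l ≠ v := (mem_erase.1 (mem_erase.1 hl).2).1
  have h1 := h (v, j, l) (mem_D.2 ⟨jv.symm, lv.symm, lj.symm⟩)
  unfold few at h1
  push Not at h1
  obtain ⟨m1, a1, a2, a3, a4⟩ := h1 (hX v)
  have h2 := h (v, m1, j) (mem_D.2 ⟨a1.symm, jv.symm, a2⟩)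
  unfold few at h2
  push Not at h2
  obtain ⟨m2, b1, b2, b3, b4⟩ := h2 (hX v)
  rw [← card_pair (show m1 ≠ m2 from fun e => b2 e.symm)]
  refine card_le_card ?_
  intro x hx
  rw [mem_insert, mem_singleton] at hx
  rw [mem_filter]
  rcases hx with rfl | rfl
  · exact ⟨mem_univ _, a1, a4⟩
  · exact ⟨mem_univ _, b1, b4⟩

/-- good maps give joins -/
theorem join_good (hk : 3 ≤ k) {H : Finset (Finset (Fin n))} (h3 : ∀ e ∈ H, e.card = 3)
    (hK : K43Free H) {A B : Fin n → Finset (Fin n)} (h : ∀ v, Divides v (A v) (B v))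
    {X : Finset (Fin n)} {f : Fin k → Fin n} (hf : ∀ t ∈ D k, beta H A B X f t = 0) :
    Join (fun x y z : Fin k => ({f x, f y, f z} : Finset (Fin n)) ∈ H)
      (fun v x => decide (f x ∈ A (f v))) := by
  have third : ∀ a b : Fin k, a ≠ b → ∃ c, a ≠ c ∧ b ≠ c := by
    intro a b hab
    have hc : ((univ.erase a).erase b).card = k - 2 := by
      rw [card_erase_of_mem (mem_erase.2 ⟨hab.symm, mem_univ _⟩),
        card_erase_of_mem (mem_univ _), card_univ, Fintype.card_fin]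
      omega
    obtain ⟨l, hl⟩ : ((univ.erase a).erase b).Nonempty := card_pos.1 (by omega)
    exact ⟨l, (mem_erase.1 (mem_erase.1 hl).2).1.symm, (mem_erase.1 hl).1.symm⟩
  have hinj : ∀ a b : Fin k, a ≠ b → f a ≠ f b := by
    intro a b hab
    obtain ⟨c, hac, hbc⟩ := third a b hab
    exact (beta_zero (hf (a, b, c) (mem_D.2 ⟨hab, hac, hbc⟩))).1
  have hX : ∀ a : Fin k, f a ∉ X := by
    intro a
    have hc : (univ.erase a).card = k - 1 := by
      rw [card_erase_of_mem (mem_univ _), card_univ, Fintype.card_fin]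
    obtain ⟨b, hb⟩ : (univ.erase a).Nonempty := card_pos.1 (by omega)
    have hab : a ≠ b := (mem_erase.1 hb).1.symm
    obtain ⟨c, hac, hbc⟩ := third a b hab
    exact (beta_zero (hf (a, b, c) (mem_D.2 ⟨hab, hac, hbc⟩))).2.1
  have hmem : ∀ v x : Fin k, v ≠ x → f x ∈ A (f v) ∨ f x ∈ B (f v) := fun v x hvx =>
    (h (f v)).mem.1 (hinj v x hvx).symm
  have tA := two_of hk hX fun t ht => (beta_zero (hf t ht)).2.2.2.1
  have tB := two_of hk hX fun t ht => (beta_zero (hf t ht)).2.2.2.2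
  have hcr : ∀ v x y : Fin k, v ≠ x → v ≠ y → x ≠ y → f x ∈ A (f v) → f y ∈ B (f v) →
      ({f v, f x, f y} : Finset (Fin n)) ∈ H := by
    intro v x y h1 h2 h4 h5 h6
    have h7 := (beta_zero (hf (v, x, y) (mem_D.2 ⟨h1, h2, h4⟩))).2.2.1
    by_contra hcon
    exact h7 ⟨hX v, h5, h6, hcon⟩
  refine ⟨?_, ?_, ?_, ?_, ?_, ?_⟩
  · intro a b c d h1 h2 h4 h5 h6 h7 p1 p2 p3 p4
    exact four_of H hK (hinj a b h1) (hinj a c h2) (hinj a d h4) (hinj b c h5) (hinj b d h6)
      (hinj c d h7) p1 p2 p3 p4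
  · intro a b c p
    rw [swap_set]
    exact p
  · intro a b c p
    rw [← rot_set]
    exact p
  · intro a b c p
    obtain ⟨d1, d2, d3⟩ := dist_of h3 p
    exact ⟨fun e => d1 (by rw [e]), fun e => d2 (by rw [e]), fun e => d3 (by rw [e])⟩
  · intro v x y h1 h2 h4 h5
    rcases hmem v x h1 with hx | hx <;> rcases hmem v y h2 with hy | hy
    · exact absurd (by simp [hx, hy]) h5
    · exact hcr v x y h1 h2 h4 hx hy
    · rw [← pair_comm (f y) (f x)]
      exact hcr v y x h2 h1 h4.symm hy hx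
    · have hx' : f x ∉ A (f v) := fun h6 => (h (f v)).notB h6 hx
      have hy' : f y ∉ A (f v) := fun h6 => (h (f v)).notB h6 hy
      exact absurd (by simp [hx', hy']) h5
  · intro v y hvy
    by_cases hy : f y ∈ A (f v)
    · refine (tB v).trans (card_le_card ?_)
      intro x hx
      rw [mem_filter] at hx
      rw [mem_far]
      refine ⟨hx.2.1, ?_⟩
      have : f x ∉ A (f v) := fun h2 => (h (f v)).notB h2 hx.2.2
      simp [this, hy]
    · refine (tA v).trans (card_le_card ?_)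
      intro x hx
      rw [mem_filter] at hx
      rw [mem_far]
      exact ⟨hx.2.1, by simp [hx.2.2, hy]⟩

/-- the bound for one map -/
theorem one_map (hk : 3 ≤ k) {H : Finset (Finset (Fin n))} (h3 : ∀ e ∈ H, e.card = 3)
    (hK : K43Free H) {A B : Fin n → Finset (Fin n)} (h : ∀ v, Divides v (A v) (B v))
    (X : Finset (Fin n)) (f : Fin k → Fin n) :
    ∑ t ∈ D k, ind (({f t.1, f t.2.1, f t.2.2} : Finset (Fin n)) ∈ H) ≤
      6 * (tn k : ℤ) + (k : ℤ) ^ 3 * ∑ t ∈ D k, beta H A B X f t := by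
  have hnn : ∀ t ∈ D k, 0 ≤ beta H A B X f t := fun t _ => beta_nonneg H A B X f t
  by_cases hz : ∑ t ∈ D k, beta H A B X f t = 0
  · have hz' := (sum_eq_zero_iff_of_nonneg hnn).1 hz
    have hj := join_good hk h3 hK h hz'
    have hV : ∃ v y : Fin k, v ≠ y := by
      refine ⟨⟨0, by omega⟩, ⟨1, by omega⟩, ?_⟩
      simp
    have hb := hj.bound hV
    rw [Fintype.card_fin] at hb
    rw [hz, mul_zero, add_zero]
    refine le_trans ?_ hb
    have e : ∑ x : Fin k, ∑ y : Fin k, ∑ z : Fin k,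
        ind (({f x, f y, f z} : Finset (Fin n)) ∈ H) =
        ∑ t : Fin k × Fin k × Fin k,
          ind (({f t.1, f t.2.1, f t.2.2} : Finset (Fin n)) ∈ H) := by
      rw [Fintype.sum_prod_type]
      refine sum_congr rfl fun x _ => ?_
      rw [Fintype.sum_prod_type]
    rw [e]
    exact sum_le_univ_sum_of_nonneg fun t => ind_nonneg _
  · have h0 : 0 ≤ ∑ t ∈ D k, beta H A B X f t := sum_nonneg hnn
    have h1 : 1 ≤ ∑ t ∈ D k, beta H A B X f t := by omega
    have h2 : ∑ t ∈ D k, ind (({f t.1, f t.2.1, f t.2.2} : Finset (Fin n)) ∈ H) ≤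
        ((D k).card : ℤ) := by
      rw [card_eq_sum_ones]
      push_cast
      refine sum_le_sum fun t _ => ?_
      unfold ind
      split_ifs <;> norm_num
    have h4 := D_card_le k
    have h5 : (0 : ℤ) ≤ (k : ℤ) ^ 3 := by positivity
    have h6 : (0 : ℤ) ≤ (tn k : ℤ) := Int.natCast_nonneg _
    nlinarith

/-- the number of ordered edges -/
noncomputable def ord (H : Finset (Finset (Fin n))) : ℤ :=
  ∑ x : Fin n, ∑ y : Fin n, ∑ z : Fin n, ind (({x, y, z} : Finset (Fin n)) ∈ H)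

theorem sum_ind_card {α : Type*} [Fintype α] (p : α → Prop) [DecidablePred p] :
    ∑ x, ind (p x) = ((univ.filter fun x => p x).card : ℤ) := by
  rw [card_filter]
  push_cast
  refine sum_congr rfl fun x _ => ?_
  unfold ind
  split_ifs <;> simp_all

/-- the sum of `few` -/
theorem sum_few (A : Fin n → Finset (Fin n)) (X : Finset (Fin n)) {t : Fin k × Fin k × Fin k}
    (ht : t ∈ D k) : ∑ f : Fin k → Fin n, ind (few A X f t) =
      ∑ v, ind (v ∉ X) * ((n : ℤ) ^ 2 * ((n - (A v).card : ℕ) : ℤ) ^ (k - 3)) := by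
  obtain ⟨d1, d2, d3⟩ := mem_D.1 ht
  have h1 := sum_fiberwise_of_maps_to (s := (univ : Finset (Fin k → Fin n)))
    (t := (univ : Finset (Fin n))) (g := fun f => f t.1) (fun x _ => mem_univ _)
    (fun f => ind (few A X f t))
  rw [← h1]
  refine sum_congr rfl fun v _ => ?_
  by_cases hv : v ∈ X
  · rw [ind_f (fun h => h hv), zero_mul]
    refine sum_eq_zero fun f hf => ?_
    have h2 := (mem_filter.1 hf).2
    exact ind_f fun h4 => h4.1 (by rw [h2]; exact hv)
  · rw [ind_t hv, one_mul]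
    have h3 := card3 d1 d2 d3 ({v} : Finset (Fin n)) univ univ (A v)ᶜ
    rw [card_singleton, card_univ, Fintype.card_fin, card_compl, Fintype.card_fin] at h3
    have h4 : ∑ f ∈ univ.filter (fun f : Fin k → Fin n => f t.1 = v), ind (few A X f t) =
        ((univ.filter fun f : Fin k → Fin n => f t.1 ∈ ({v} : Finset (Fin n)) ∧
          f t.2.1 ∈ (univ : Finset (Fin n)) ∧ f t.2.2 ∈ (univ : Finset (Fin n)) ∧
          ∀ m, m ≠ t.1 → m ≠ t.2.1 → m ≠ t.2.2 → f m ∈ (A v)ᶜ).card : ℤ) := by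
      rw [← sum_ind_card, sum_filter]
      refine sum_congr rfl fun f _ => ?_
      by_cases hfv : f t.1 = v
      · rw [if_pos hfv]
        congr 1
        unfold few
        rw [hfv]
        simp [hv]
      · rw [if_neg hfv]
        symm
        apply ind_f
        simp [hfv]
    have h5 : (univ.filter fun f : Fin k → Fin n => f t.1 ∈ ({v} : Finset (Fin n)) ∧
          f t.2.1 ∈ (univ : Finset (Fin n)) ∧ f t.2.2 ∈ (univ : Finset (Fin n)) ∧
          ∀ m, m ≠ t.1 → m ≠ t.2.1 → m ≠ t.2.2 → f m ∈ (A v)ᶜ).card =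
        1 * n * n * (n - (A v).card) ^ (k - 3) := by
      convert h3
    rw [h4, h5]
    push_cast
    ring

/-- The inequality obtained by summation over all maps. -/
theorem all_maps (hk : 3 ≤ k) {H : Finset (Finset (Fin n))} (h3 : ∀ e ∈ H, e.card = 3)
    (hK : K43Free H) {A B : Fin n → Finset (Fin n)} (h : ∀ v, Divides v (A v) (B v))
    (X : Finset (Fin n)) :
    ((D k).card : ℤ) * ((n : ℤ) ^ (k - 3) * ord H) ≤
      (n : ℤ) ^ k * (6 * (tn k : ℤ)) + (k : ℤ) ^ 3 * (((D k).card : ℤ) *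
        ((n : ℤ) ^ (k - 3) * (n : ℤ) ^ 2 + (n : ℤ) ^ (k - 3) * ((X.card : ℤ) * (n : ℤ) ^ 2) +
        (n : ℤ) ^ (k - 3) * ∑ v, ∑ a, ∑ b, ind (miss H A B X v a b) +
        ∑ v, ind (v ∉ X) * ((n : ℤ) ^ 2 * ((n - (A v).card : ℕ) : ℤ) ^ (k - 3)) +
        ∑ v, ind (v ∉ X) * ((n : ℤ) ^ 2 * ((n - (B v).card : ℕ) : ℤ) ^ (k - 3)))) := by
  have e1 : ∑ f : Fin k → Fin n, ∑ t ∈ D k,
      ind (({f t.1, f t.2.1, f t.2.2} : Finset (Fin n)) ∈ H) =
      ((D k).card : ℤ) * ((n : ℤ) ^ (k - 3) * ord H) := by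
    rw [sum_comm]
    rw [sum_congr rfl (g := fun _ => (n : ℤ) ^ (k - 3) * ord H), sum_const, nsmul_eq_mul]
    intro t ht
    obtain ⟨d1, d2, d3⟩ := mem_D.1 ht
    have := sum3 d1 d2 d3 (fun x y z : Fin n => ind (({x, y, z} : Finset (Fin n)) ∈ H))
    rw [Fintype.card_fin] at this
    exact this
  have e2 : ∑ f : Fin k → Fin n, ∑ t ∈ D k, beta H A B X f t = ((D k).card : ℤ) *
        ((n : ℤ) ^ (k - 3) * (n : ℤ) ^ 2 + (n : ℤ) ^ (k - 3) * ((X.card : ℤ) * (n : ℤ) ^ 2) +
        (n : ℤ) ^ (k - 3) * ∑ v, ∑ a, ∑ b, ind (miss H A B X v a b) +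
        ∑ v, ind (v ∉ X) * ((n : ℤ) ^ 2 * ((n - (A v).card : ℕ) : ℤ) ^ (k - 3)) +
        ∑ v, ind (v ∉ X) * ((n : ℤ) ^ 2 * ((n - (B v).card : ℕ) : ℤ) ^ (k - 3))) := by
    rw [sum_comm, ← nsmul_eq_mul, ← sum_const]
    refine sum_congr rfl fun t ht => ?_
    obtain ⟨d1, d2, d3⟩ := mem_D.1 ht
    unfold beta
    rw [sum_add_distrib, sum_add_distrib, sum_add_distrib, sum_add_distrib, sum_few A X ht,
      sum_few B X ht]
    have s1 := sum3 d1 d2 d3 (fun x y _ : Fin n => ind (x = y))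
    have s2 := sum3 d1 d2 d3 (fun x _ _ : Fin n => ind (x ∈ X))
    have s3 := sum3 d1 d2 d3 (fun x y z : Fin n => ind (miss H A B X x y z))
    rw [Fintype.card_fin] at s1 s2 s3
    have u1 : ∑ x : Fin n, ∑ y : Fin n, ∑ _z : Fin n, ind (x = y) = (n : ℤ) ^ 2 := by
      have : ∀ x y : Fin n, ∑ _z : Fin n, ind (x = y) = if x = y then (n : ℤ) else 0 := by
        intro x y
        rw [sum_const, card_univ, Fintype.card_fin, nsmul_eq_mul]
        unfold ind
        split_ifs <;> simp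
      rw [sum_congr rfl fun x _ => sum_congr rfl fun y _ => this x y]
      rw [sum_congr rfl fun x _ => by rw [sum_ite_eq univ x, if_pos (mem_univ _)]]
      rw [sum_const, card_univ, Fintype.card_fin, nsmul_eq_mul]
      ring
    have u2 : ∑ x : Fin n, ∑ _y : Fin n, ∑ _z : Fin n, ind (x ∈ X) =
        (X.card : ℤ) * (n : ℤ) ^ 2 := by
      simp only [sum_const, card_univ, Fintype.card_fin, nsmul_eq_mul]
      rw [← mul_sum, ← mul_sum]
      have h7 : ∑ i : Fin n, ind (i ∈ X) = (X.card : ℤ) := by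
        rw [sum_ind_card]
        congr 2
        ext x
        simp
      rw [h7]
      ring
    rw [s1, s2, s3, u1, u2]
  have e3 := sum_le_sum fun (f : Fin k → Fin n) (_ : f ∈ univ) => one_map hk h3 hK h X f
  have e4 : ∑ f : Fin k → Fin n, (6 * (tn k : ℤ) + (k : ℤ) ^ 3 * ∑ t ∈ D k, beta H A B X f t) =
      (n : ℤ) ^ k * (6 * (tn k : ℤ)) +
        (k : ℤ) ^ 3 * ∑ f : Fin k → Fin n, ∑ t ∈ D k, beta H A B X f t := by
    rw [sum_add_distrib, sum_const, card_univ, Fintype.card_fun, Fintype.card_fin,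
      Fintype.card_fin, nsmul_eq_mul, mul_sum]
    push_cast
    rfl
  rw [e1, e4, e2] at e3
  exact e3

end Pool.Agent.R810.LJ
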