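import Pool.Agent.R810.LJ.Exact

/-! Counting maps into the vertex set. -/

set_option autoImplicit false
open Finset
open scoped Classical

namespace Pool.Agent.R810.LJ

theorem prod3 {k : ℕ} {i j l : Fin k} (hij : i ≠ j) (hil : i ≠ l) (hjl : j ≠ l) (a b c d : ℕ) :
    ∏ m : Fin k, (if m = i then a else if m = j then b else if m = l then c else d) =
      a * b * c * d ^ (k - 3) := by
  have m1 : j ∈ univ.erase i := mem_erase.2 ⟨hij.symm, mem_univ j⟩
  have m2 : l ∈ (univ.erase i).erase j := mem_erase.2 ⟨hjl.symm, mem_erase.2 ⟨hil.symm, mem_univ l⟩⟩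
  rw [← mul_prod_erase univ _ (mem_univ i), ← mul_prod_erase (univ.erase i) _ m1,
    ← mul_prod_erase ((univ.erase i).erase j) _ m2]
  rw [if_pos rfl, if_neg hij.symm, if_pos rfl, if_neg hil.symm, if_neg hjl.symm, if_pos rfl]
  have e : ∀ m ∈ ((univ.erase i).erase j).erase l,
      (if m = i then a else if m = j then b else if m = l then c else d) = d := by
    intro m hm
    simp only [mem_erase, mem_univ, and_true] at hm
    rw [if_neg hm.2.2, if_neg hm.2.1, if_neg hm.1]
  rw [prod_congr rfl e, prod_const, card_erase_of_mem m2, card_erase_of_mem m1,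
    card_erase_of_mem (mem_univ i), card_univ, Fintype.card_fin, Nat.sub_sub, Nat.sub_sub]
  ring

theorem card3 {k : ℕ} {V : Type*} [Fintype V] {i j l : Fin k} (hij : i ≠ j) (hil : i ≠ l)
    (hjl : j ≠ l) (S1 S2 S3 S : Finset V) :
    (univ.filter fun f : Fin k → V => f i ∈ S1 ∧ f j ∈ S2 ∧ f l ∈ S3 ∧
      ∀ m, m ≠ i → m ≠ j → m ≠ l → f m ∈ S).card =
      S1.card * S2.card * S3.card * S.card ^ (k - 3) := by
  have e : (univ.filter fun f : Fin k → V => f i ∈ S1 ∧ f j ∈ S2 ∧ f l ∈ S3 ∧
      ∀ m, m ≠ i → m ≠ j → m ≠ l → f m ∈ S) =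
      Fintype.piFinset fun m : Fin k =>
        if m = i then S1 else if m = j then S2 else if m = l then S3 else S := by
    ext f
    simp only [mem_filter, mem_univ, true_and, Fintype.mem_piFinset]
    constructor
    · rintro ⟨h1, h2, h3, h4⟩ m
      split_ifs with e1 e2 e3
      · rw [e1]; exact h1
      · rw [e2]; exact h2
      · rw [e3]; exact h3
      · exact h4 m e1 e2 e3
    · intro h
      refine ⟨?_, ?_, ?_, ?_⟩
      · have := h i
        rwa [if_pos rfl] at this
      · have := h j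
        rwa [if_neg hij.symm, if_pos rfl] at this
      · have := h l
        rwa [if_neg hil.symm, if_neg hjl.symm, if_pos rfl] at this
      · intro m e1 e2 e3
        have := h m
        rwa [if_neg e1, if_neg e2, if_neg e3] at this
  rw [e, Fintype.card_piFinset, ← prod3 hij hil hjl]
  refine prod_congr rfl fun m _ => ?_
  split_ifs <;> rfl

/-- sums over maps of functions of three values -/
theorem sum3 {k : ℕ} {V : Type*} [Fintype V] {i j l : Fin k} (hij : i ≠ j) (hil : i ≠ l)
    (hjl : j ≠ l) (F : V → V → V → ℤ) :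
    ∑ f : Fin k → V, F (f i) (f j) (f l) =
      (Fintype.card V : ℤ) ^ (k - 3) * ∑ x, ∑ y, ∑ z, F x y z := by
  have h1 := sum_fiberwise_of_maps_to (s := (univ : Finset (Fin k → V)))
    (t := (univ : Finset (V × V × V))) (g := fun f => (f i, f j, f l)) (fun x _ => mem_univ _)
    (fun f => F (f i) (f j) (f l))
  rw [← h1, Fintype.sum_prod_type, mul_sum]
  refine sum_congr rfl fun x _ => ?_
  rw [Fintype.sum_prod_type, mul_sum]
  refine sum_congr rfl fun y _ => ?_
  rw [mul_sum]
  refine sum_congr rfl fun z _ => ?_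
  have e : ∀ f ∈ univ.filter (fun f : Fin k → V => (f i, f j, f l) = (x, y, z)),
      F (f i) (f j) (f l) = F x y z := by
    intro f hf
    have h2 := (mem_filter.1 hf).2
    simp only [Prod.mk.injEq] at h2
    rw [h2.1, h2.2.1, h2.2.2]
  rw [sum_congr rfl e, sum_const, nsmul_eq_mul]
  congr 1
  have h3 := card3 hij hil hjl ({x} : Finset V) {y} {z} univ
  rw [card_singleton, card_singleton, card_singleton, card_univ] at h3
  have h4 : (univ.filter fun f : Fin k → V => (f i, f j, f l) = (x, y, z)) =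
      univ.filter fun f : Fin k → V => f i ∈ ({x} : Finset V) ∧ f j ∈ ({y} : Finset V) ∧
        f l ∈ ({z} : Finset V) ∧ ∀ m, m ≠ i → m ≠ j → m ≠ l → f m ∈ (univ : Finset V) := by
    refine filter_congr fun f _ => ?_
    simp
  rw [h4, h3]
  push_cast
  ring

/-- the triples of different indices -/
def D (k : ℕ) : Finset (Fin k × Fin k × Fin k) :=
  univ.filter fun t => t.1 ≠ t.2.1 ∧ t.1 ≠ t.2.2 ∧ t.2.1 ≠ t.2.2

theorem mem_D {k : ℕ} {t : Fin k × Fin k × Fin k} :
    t ∈ D k ↔ t.1 ≠ t.2.1 ∧ t.1 ≠ t.2.2 ∧ t.2.1 ≠ t.2.2 := by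
  unfold D
  simp

theorem D_card_le (k : ℕ) : ((D k).card : ℤ) ≤ (k : ℤ) ^ 3 := by
  have h : (D k).card ≤ k * (k * k) := by
    refine (card_le_univ _).trans ?_
    simp
  have h2 : ((D k).card : ℤ) ≤ ((k * (k * k) : ℕ) : ℤ) := by exact_mod_cast h
  push_cast at h2
  linarith [h2, show (k : ℤ) ^ 3 = k * (k * k) by ring]

theorem D_card_ge (k : ℕ) : (k : ℤ) ^ 3 - 3 * (k : ℤ) ^ 2 ≤ ((D k).card : ℤ) := by
  -- the triples with two equal indices
  have h1 : (univ : Finset (Fin k × Fin k × Fin k)) ⊆ D k ∪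
      ((univ : Finset (Fin k × Fin k)).image fun p => (p.1, p.1, p.2)) ∪
      ((univ : Finset (Fin k × Fin k)).image fun p => (p.1, p.2, p.1)) ∪
      ((univ : Finset (Fin k × Fin k)).image fun p => (p.1, p.2, p.2)) := by
    rintro ⟨a, b, c⟩ -
    simp only [mem_union, mem_D, mem_image, mem_univ, true_and, Prod.mk.injEq, Prod.exists]
    by_cases e1 : a = b
    · subst e1
      exact Or.inl (Or.inl (Or.inr ⟨a, c, rfl, rfl, rfl⟩))
    · by_cases e2 : a = c
      · subst e2
        exact Or.inl (Or.inr ⟨a, b, rfl, rfl, rfl⟩)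
      · by_cases e3 : b = c
        · subst e3
          exact Or.inr ⟨a, b, rfl, rfl, rfl⟩
        · exact Or.inl (Or.inl (Or.inl ⟨e1, e2, e3⟩))
  have h2 := card_le_card h1
  have hp : (univ : Finset (Fin k × Fin k)).card = k * k := by simp
  have i1 : ((univ : Finset (Fin k × Fin k)).image fun p => (p.1, p.1, p.2)).card ≤ k * k :=
    card_image_le.trans hp.le
  have i2 : ((univ : Finset (Fin k × Fin k)).image fun p => (p.1, p.2, p.1)).card ≤ k * k :=
    card_image_le.trans hp.le
  have i3 : ((univ : Finset (Fin k × Fin k)).image fun p => (p.1, p.2, p.2)).card ≤ k * k :=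
    card_image_le.trans hp.le
  have h3 := card_union_le (D k ∪
      ((univ : Finset (Fin k × Fin k)).image fun p => (p.1, p.1, p.2)) ∪
      ((univ : Finset (Fin k × Fin k)).image fun p => (p.1, p.2, p.1)))
      ((univ : Finset (Fin k × Fin k)).image fun p => (p.1, p.2, p.2))
  have h4 := card_union_le (D k ∪
      ((univ : Finset (Fin k × Fin k)).image fun p => (p.1, p.1, p.2)))
      ((univ : Finset (Fin k × Fin k)).image fun p => (p.1, p.2, p.1))
  have h5 := card_union_le (D k)
      ((univ : Finset (Fin k × Fin k)).image fun p => (p.1, p.1, p.2))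
  have h6 : (univ : Finset (Fin k × Fin k × Fin k)).card = k * (k * k) := by simp
  rw [h6] at h2
  have h7 : k * (k * k) ≤ (D k).card + 3 * (k * k) := by omega
  have h8 : ((k * (k * k) : ℕ) : ℤ) ≤ (((D k).card + 3 * (k * k) : ℕ) : ℤ) := by exact_mod_cast h7
  push_cast at h8
  nlinarith [h8]

end Pool.Agent.R810.LJ
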