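import Pool.Agent.R810.LJ.Exact
import Pool.Agent.R810.LJ.Data

/-! Turán's construction. -/

set_option autoImplicit false
open Finset
open scoped Classical

namespace Pool.Agent.R810.LJ

variable {n : ℕ}

theorem mem_turanGraph (g : Fin n → Fin 3) {x y z : Fin n} (h1 : x ≠ y) (h2 : x ≠ z)
    (h3 : y ≠ z) : ({x, y, z} : Finset (Fin n)) ∈ turanGraph g ↔ pat (g x) (g y) (g z) = true := by
  have hc : ({x, y, z} : Finset (Fin n)).card = 3 := card_eq_three.2 ⟨x, y, z, h1, h2, h3, rfl⟩
  rw [← pat_iff]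
  unfold turanGraph
  rw [mem_filter]
  simp only [mem_univ, true_and, hc]
  refine or_congr ?_ ?_
  · simp
  · refine exists_congr fun k => ?_
    rw [filter_three g h1 h2 h3, filter_three g h1 h2 h3]

theorem card_of_turan {g : Fin n → Fin 3} {e : Finset (Fin n)} (he : e ∈ turanGraph g) :
    e.card = 3 := (mem_filter.1 he).2.1

theorem turan_free (g : Fin n → Fin 3) : K43Free (turanGraph g) := by
  intro S hS
  obtain ⟨a, b, c, d, h1, h2, h3, h4, h5, h6, rfl⟩ := card_eq_four.1 hS
  have hc : ∀ x y z : Fin n, x ≠ y → x ≠ z → y ≠ z → ({x, y, z} : Finset (Fin n)).card = 3 :=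
    fun x y z u1 u2 u3 => card_eq_three.2 ⟨x, y, z, u1, u2, u3, rfl⟩
  rcases pat_four (g a) (g b) (g c) (g d) with h | h | h | h
  · refine ⟨{a, b, c}, ?_, hc a b c h1 h2 h4, fun hm => ?_⟩
    · intro x hx
      simp only [mem_insert, mem_singleton] at hx ⊢
      tauto
    · rw [mem_turanGraph g h1 h2 h4, h] at hm
      exact absurd hm (by decide)
  · refine ⟨{a, b, d}, ?_, hc a b d h1 h3 h5, fun hm => ?_⟩
    · intro x hx
      simp only [mem_insert, mem_singleton] at hx ⊢
      tauto
    · rw [mem_turanGraph g h1 h3 h5, h] at hm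
      exact absurd hm (by decide)
  · refine ⟨{a, c, d}, ?_, hc a c d h2 h3 h6, fun hm => ?_⟩
    · intro x hx
      simp only [mem_insert, mem_singleton] at hx ⊢
      tauto
    · rw [mem_turanGraph g h2 h3 h6, h] at hm
      exact absurd hm (by decide)
  · refine ⟨{b, c, d}, ?_, hc b c d h4 h5 h6, fun hm => ?_⟩
    · intro x hx
      simp only [mem_insert, mem_singleton] at hx ⊢
      tauto
    · rw [mem_turanGraph g h4 h5 h6, h] at hm
      exact absurd hm (by decide)

theorem turan_join (g : Fin n → Fin 3) (hg : ∀ i, 2 ≤ (univ.filter fun x => g x = i).card)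
    (v : Fin n) : JoinLink (turanGraph g) v := by
  have f1 : ∀ i : Fin 3, i ≠ i + 1 := by decide
  have f2 : ∀ i : Fin 3, i + 2 ≠ i + 1 := by decide
  refine ⟨univ.filter fun x => g x = g v + 1, univ.filter fun x => x ≠ v ∧ g x ≠ g v + 1,
    ⟨?_, ?_⟩, hg _, ?_, ?_⟩
  · rw [disjoint_left]
    intro x hx hy
    exact (mem_filter.1 hy).2.2 (mem_filter.1 hx).2
  · ext x
    simp only [mem_union, mem_filter, mem_univ, true_and, mem_erase, and_true]
    constructor
    · rintro (h | h)
      · rintro rfl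
        exact f1 _ h
      · exact h.1
    · intro h
      by_cases h2 : g x = g v + 1
      · exact Or.inl h2
      · exact Or.inr ⟨h, h2⟩
  · refine (hg (g v + 2)).trans (card_le_card ?_)
    intro x hx
    simp only [mem_filter, mem_univ, true_and] at hx ⊢
    refine ⟨?_, ?_⟩
    · rintro rfl
      have : ∀ i : Fin 3, i ≠ i + 2 := by decide
      exact this _ hx
    · rw [hx]
      exact f2 _
  · intro a ha b hb
    simp only [mem_filter, mem_univ, true_and] at ha hb
    have h1 : v ≠ a := by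
      rintro rfl
      exact f1 _ ha
    have h2 : a ≠ b := by
      rintro rfl
      exact hb.2 ha
    rw [mem_turanGraph g h1 hb.1.symm h2]
    exact pat_cross _ _ _ ha hb.2

theorem pat_dist {g : Fin n → Fin 3} {x y z : Fin n}
    (h : ({x, y, z} : Finset (Fin n)) ∈ turanGraph g) : x ≠ y ∧ x ≠ z ∧ y ≠ z :=
  dist_of (fun _ he => card_of_turan he) h

/-- Turán's construction has at most `tn n` edges. -/
theorem turan_card_le (g : Fin n → Fin 3) : (turanGraph g).card ≤ tn n := by
  have h1 := six_le (H := turanGraph g) fun e he => card_of_turan he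
  have h2 := ordered_le (fun x => - g x)
    (fun x y z : Fin n => ({x, y, z} : Finset (Fin n)) ∈ turanGraph g)
    (fun x y z h => pat_dist h) ?_
  · rw [Fintype.card_fin] at h2
    have : 6 * ((turanGraph g).card : ℤ) ≤ 6 * (tn n : ℤ) := h1.trans h2
    have h7 : ((turanGraph g).card : ℤ) ≤ (tn n : ℤ) := by linarith
    exact_mod_cast h7
  · intro x y z h
    obtain ⟨d1, d2, d3⟩ := pat_dist h
    rw [mem_turanGraph g d1 d2 d3] at h
    exact pat_allowed _ _ _ h

/-- the ordered edges are at most six times as many as the edges -/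
theorem ord_le_six {H : Finset (Finset (Fin n))} (h3 : ∀ e ∈ H, e.card = 3) :
    ∑ x : Fin n, ∑ y : Fin n, ∑ z : Fin n, ind (({x, y, z} : Finset (Fin n)) ∈ H) ≤
      6 * (H.card : ℤ) := by
  set T : Finset (Fin n × Fin n × Fin n) :=
    univ.filter fun t => ({t.1, t.2.1, t.2.2} : Finset (Fin n)) ∈ H with hT
  have e1 : ∑ x : Fin n, ∑ y : Fin n, ∑ z : Fin n, ind (({x, y, z} : Finset (Fin n)) ∈ H) =
      (T.card : ℤ) := by
    rw [hT, card_filter, Fintype.sum_prod_type]
    push_cast
    refine sum_congr rfl fun a _ => ?_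
    rw [Fintype.sum_prod_type]
    refine sum_congr rfl fun b _ => sum_congr rfl fun c _ => ?_
    unfold ind
    split_ifs <;> simp_all
  have hfw := card_eq_sum_card_fiberwise (s := T)
    (f := fun t : Fin n × Fin n × Fin n => ({t.1, t.2.1, t.2.2} : Finset (Fin n)))
    (t := H) (fun t ht => (mem_filter.mp (mem_coe.mp ht)).2)
  rw [e1, hfw]
  have e2 : ∑ e ∈ H, (T.filter fun t : Fin n × Fin n × Fin n =>
      ({t.1, t.2.1, t.2.2} : Finset (Fin n)) = e).card ≤ ∑ _e ∈ H, 6 := by
    refine sum_le_sum fun e he => ?_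
    obtain ⟨a, b, c, hab, hac, hbc, rfl⟩ := Finset.card_eq_three.mp (h3 e he)
    have hsub : T.filter (fun t : Fin n × Fin n × Fin n =>
        ({t.1, t.2.1, t.2.2} : Finset (Fin n)) = {a, b, c}) ⊆
        {(a, b, c), (a, c, b), (b, a, c), (b, c, a), (c, a, b), (c, b, a)} := by
      rintro ⟨x, y, z⟩ ht
      obtain ⟨h1, h2⟩ := mem_filter.mp ht
      simp only at h2
      have hd := dist_of h3 (mem_filter.mp h1).2
      simp only at hd
      obtain ⟨d1, d2, d3⟩ := hd
      have hx : x ∈ ({a, b, c} : Finset (Fin n)) := by rw [← h2]; simp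
      have hy : y ∈ ({a, b, c} : Finset (Fin n)) := by rw [← h2]; simp
      have hz : z ∈ ({a, b, c} : Finset (Fin n)) := by rw [← h2]; simp
      simp only [mem_insert, mem_singleton] at hx hy hz ⊢
      rcases hx with rfl | rfl | rfl <;> rcases hy with rfl | rfl | rfl <;>
        rcases hz with rfl | rfl | rfl <;> simp_all
    refine (card_le_card hsub).trans card_le_six
  rw [sum_const, smul_eq_mul] at e2
  have e3 : ((∑ e ∈ H, (T.filter fun t : Fin n × Fin n × Fin n =>
      ({t.1, t.2.1, t.2.2} : Finset (Fin n)) = e).card : ℕ) : ℤ) ≤ ((H.card * 6 : ℕ) : ℤ) := by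
    exact_mod_cast e2
  push_cast at e3 ⊢
  linarith

/-- the number of edges of Turán's construction -/
theorem turan_card_ge (g : Fin n → Fin 3) :
    M6 (w g 0) (w g 1) (w g 2) ≤ 6 * ((turanGraph g).card : ℤ) := by
  refine le_trans ?_ (ord_le_six fun e he => card_of_turan he)
  set h : Fin n → Fin 3 := fun x => - g x with hh
  have hw : ∀ i, w h i = w g (-i) := by
    intro i
    unfold w
    congr 1
    ext x
    simp only [mem_filter, mem_univ, true_and, hh]
    constructor
    · intro h6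
      rw [← h6, neg_neg]
    · intro h6
      rw [h6, neg_neg]
  have e1 : ∀ x y z, ind (aa (h x) (h y) (h z)) + ind (x ≠ y ∧ bb (h x) (h y) (h z)) +
      ind (y ≠ z ∧ bb (h y) (h z) (h x)) + ind (z ≠ x ∧ bb (h z) (h x) (h y)) ≤
      ind (({x, y, z} : Finset (Fin n)) ∈ turanGraph g) := by
    intro x y z
    have f0 : ∀ i : Fin 3, i ≠ i - 1 := by decide
    by_cases hd : x ≠ y ∧ x ≠ z ∧ y ≠ z
    · obtain ⟨d1, d2, d3⟩ := hd
      have q := pat_sum (g x) (g y) (g z)
      have r1 : ind (({x, y, z} : Finset (Fin n)) ∈ turanGraph g) =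
          if pat (g x) (g y) (g z) = true then (1 : ℤ) else 0 := by
        unfold ind
        rw [mem_turanGraph g d1 d2 d3]
        congr
      rw [r1, q]
      unfold ind aa bb
      simp only [hh, ne_eq, d1, d3, d2.symm, not_false_eq_true, true_and]
      apply le_of_eq
      congr
    · have n1 : ∀ i j l : Fin 3, i = j → ¬ aa i j l := fun i j l h1 h2 => h2.1 h1
      have hz : ind (aa (h x) (h y) (h z)) = 0 := by
        apply ind_f
        rintro ⟨h1, h2, h3⟩
        exact hd ⟨fun e => h1 (by rw [e]), fun e => h2 (by rw [e]), fun e => h3 (by rw [e])⟩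
      have hb1 : ind (x ≠ y ∧ bb (h x) (h y) (h z)) = 0 := by
        apply ind_f
        rintro ⟨h1, h2, h3⟩
        refine hd ⟨h1, fun e => ?_, fun e => ?_⟩
        · rw [← e] at h3
          exact f0 _ h3
        · rw [← e, ← h2] at h3
          exact f0 _ h3
      have hb2 : ind (y ≠ z ∧ bb (h y) (h z) (h x)) = 0 := by
        apply ind_f
        rintro ⟨h1, h2, h3⟩
        refine hd ⟨fun e => ?_, fun e => ?_, h1⟩
        · rw [e] at h3
          exact f0 _ h3
        · rw [e, ← h2] at h3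
          exact f0 _ h3
      have hb3 : ind (z ≠ x ∧ bb (h z) (h x) (h y)) = 0 := by
        apply ind_f
        rintro ⟨h1, h2, h3⟩
        refine hd ⟨fun e => ?_, h1.symm, fun e => ?_⟩
        · rw [← e, ← h2] at h3
          exact f0 _ h3
        · rw [e] at h3
          exact f0 _ h3
      rw [hz, hb1, hb2, hb3]
      exact ind_nonneg _
  have e2 : ∑ x, ∑ y, ∑ z, ind (y ≠ z ∧ bb (h y) (h z) (h x)) =
      ∑ x, ∑ y, ∑ z, ind (x ≠ y ∧ bb (h x) (h y) (h z)) := by
    rw [sum_comm]
    refine sum_congr rfl fun y _ => ?_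
    rw [sum_comm]
  have e3 : ∑ x, ∑ y, ∑ z, ind (z ≠ x ∧ bb (h z) (h x) (h y)) =
      ∑ x, ∑ y, ∑ z, ind (x ≠ y ∧ bb (h x) (h y) (h z)) := by
    rw [sum_congr rfl fun x _ => sum_comm, sum_comm]
  have e4 : ∑ x, ∑ y, ∑ z, ind (aa (h x) (h y) (h z)) +
      ∑ x, ∑ y, ∑ z, ind (x ≠ y ∧ bb (h x) (h y) (h z)) +
      ∑ x, ∑ y, ∑ z, ind (y ≠ z ∧ bb (h y) (h z) (h x)) +
      ∑ x, ∑ y, ∑ z, ind (z ≠ x ∧ bb (h z) (h x) (h y)) ≤
      ∑ x : Fin n, ∑ y : Fin n, ∑ z : Fin n,
        ind (({x, y, z} : Finset (Fin n)) ∈ turanGraph g) := by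
    simp only [← sum_add_distrib]
    exact sum_le_sum fun x _ => sum_le_sum fun y _ => sum_le_sum fun z _ => e1 x y z
  rw [e2, e3, sum_aa, sum_bb] at e4
  have w0 : w h 0 = w g 0 := by rw [hw]; rfl
  have w1 : w h 1 = w g 2 := by rw [hw]; rfl
  have w2 : w h 2 = w g 1 := by rw [hw]; rfl
  rw [w0, w1, w2] at e4
  unfold M6
  linarith

/-- the residues mod 3 -/
def res (n : ℕ) (x : Fin n) : Fin 3 := ⟨(x : ℕ) % 3, Nat.mod_lt _ (by norm_num)⟩

theorem w_res (n : ℕ) (i : Fin 3) : w (res n) i = (n + 2 - (i : ℕ)) / 3 := by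
  have hi : (i : ℕ) < 3 := i.2
  have h1 : w (res n) i = Nat.count (fun x => x % 3 = (i : ℕ)) n := by
    unfold w
    rw [Nat.count_eq_card_filter_range]
    refine card_bij (fun x _ => (x : ℕ)) ?_ ?_ ?_
    · intro x hx
      have h5 := (mem_filter.1 hx).2
      refine mem_filter.2 ⟨mem_range.2 x.2, ?_⟩
      have h6 := congrArg (fun j : Fin 3 => (j : ℕ)) h5
      exact h6
    · intro x _ y _ h
      exact Fin.ext h
    · intro b hb
      refine ⟨⟨b, mem_range.1 (mem_filter.1 hb).1⟩, mem_filter.2 ⟨mem_univ _, ?_⟩, rfl⟩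
      exact Fin.ext (mem_filter.1 hb).2
  rw [h1]
  have h2 := Nat.count_modEq_card n (r := 3) (by norm_num) (i : ℕ)
  have h3 : Nat.count (fun x => x % 3 = (i : ℕ)) n = Nat.count (fun x => x ≡ (i : ℕ) [MOD 3]) n := by
    congr 1
    ext x
    unfold Nat.ModEq
    rw [Nat.mod_eq_of_lt hi]
  rw [h3, h2]
  split_ifs <;> omega

theorem M6_tn (p q r : ℕ) : 6 * ((p * q * r + p.choose 2 * q + q.choose 2 * r +
    r.choose 2 * p : ℕ) : ℤ) = M6 p q r := by
  unfold M6
  push_cast
  linear_combination (3 * (q : ℤ)) * c2 p + (3 * (r : ℤ)) * c2 q + (3 * (p : ℤ)) * c2 r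

theorem exists_balanced (n : ℕ) (hn : 6 ≤ n) : ∃ g : Fin n → Fin 3,
    (∀ i, 2 ≤ (univ.filter fun x => g x = i).card) ∧ (turanGraph g).card = tn n := by
  have hw : ∀ i, w (fun x => 2 - res n x) i = w (res n) (2 - i) := by
    intro i
    unfold w
    congr 1
    ext x
    simp only [mem_filter, mem_univ, true_and]
    have : ∀ a b : Fin 3, 2 - a = b ↔ a = 2 - b := by decide
    exact this _ _
  have v0 : w (fun x => 2 - res n x) 0 = n / 3 := by
    rw [hw, w_res]
    change (n + 2 - 2) / 3 = n / 3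
    omega
  have v1 : w (fun x => 2 - res n x) 1 = (n + 1) / 3 := by
    rw [hw, w_res]
    change (n + 2 - 1) / 3 = (n + 1) / 3
    omega
  have v2 : w (fun x => 2 - res n x) 2 = (n + 2) / 3 := by
    rw [hw, w_res]
    change (n + 2 - 0) / 3 = (n + 2) / 3
    omega
  refine ⟨fun x => 2 - res n x, fun i => ?_, le_antisymm (turan_card_le _) ?_⟩
  · have h : (univ.filter fun x => 2 - res n x = i).card = w (fun x => 2 - res n x) i := by
      unfold w
      congr
    rw [h]
    fin_cases i
    · change 2 ≤ w (fun x => 2 - res n x) 0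
      omega
    · change 2 ≤ w (fun x => 2 - res n x) 1
      omega
    · change 2 ≤ w (fun x => 2 - res n x) 2
      omega
  · have h1 := turan_card_ge (fun x => 2 - res n x)
    rw [v0, v1, v2, ← M6_tn] at h1
    have h3 : (tn n : ℤ) ≤ ((turanGraph fun x => 2 - res n x).card : ℤ) := by
      unfold tn
      linarith
    exact_mod_cast h3

end Pool.Agent.R810.LJ
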